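import Mathlib

/-!
MP_6f80dc_co, row Bessel: Bessel's inequality for the frequencies 0 and 1.

PROOF.  Let `a = (1/(2π)) ∫ S`, `b = (1/π) ∫ S cos`, `c = (1/π) ∫ S sin` (over `[0, 2π]`).
`0 ≤ ∫ (S - a - b cos - c sin)²`; expand with `∫ 1 = 2π`, `∫ cos = ∫ sin = ∫ sin cos = 0`,
`∫ cos² = ∫ sin² = π` over `[0, 2π]` (`integral_cos_sq`, `integral_sin_sq`, `integral_sin_mul_cos₁`, …):
`∫ (…)² = ∫ S² - 2π a² - π b² - π c²`.
-/

set_option autoImplicit false

namespace Pool.H21.VC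

noncomputable section

open Real

theorem bessel (S : ℝ → ℝ) (hS : Continuous S) :
    1 / (2 * π) * (∫ s in (0 : ℝ)..2 * π, S s) ^ 2
      + 1 / π * ((∫ s in (0 : ℝ)..2 * π, S s * cos s) ^ 2
          + (∫ s in (0 : ℝ)..2 * π, S s * sin s) ^ 2)
      ≤ ∫ s in (0 : ℝ)..2 * π, S s ^ 2 := by
  have hpi : (0 : ℝ) < π := pi_pos
  set I0 := ∫ s in (0 : ℝ)..2 * π, S s with hI0
  set Ic := ∫ s in (0 : ℝ)..2 * π, S s * cos s with hIc
  set Is := ∫ s in (0 : ℝ)..2 * π, S s * sin s with hIs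
  set I2 := ∫ s in (0 : ℝ)..2 * π, S s ^ 2 with hI2
  obtain ⟨a, ha⟩ : ∃ a, a = I0 / (2 * π) := ⟨_, rfl⟩
  obtain ⟨b, hb⟩ : ∃ b, b = Ic / π := ⟨_, rfl⟩
  obtain ⟨c, hc⟩ : ∃ c, c = Is / π := ⟨_, rfl⟩
  have ii : ∀ f : ℝ → ℝ, Continuous f →
      IntervalIntegrable f MeasureTheory.volume 0 (2 * π) :=
    fun f hf => hf.intervalIntegrable _ _
  have e1 : ∫ s in (0 : ℝ)..2 * π, cos s = 0 := by
    rw [integral_cos]; simp
  have e2 : ∫ s in (0 : ℝ)..2 * π, sin s = 0 := by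
    rw [integral_sin]; simp
  have e3 : ∫ s in (0 : ℝ)..2 * π, cos s ^ 2 = π := by
    rw [integral_cos_sq]; simp
  have e4 : ∫ s in (0 : ℝ)..2 * π, sin s ^ 2 = π := by
    rw [integral_sin_sq]; simp
  have e5 : ∫ s in (0 : ℝ)..2 * π, sin s * cos s = 0 := by
    rw [integral_sin_mul_cos₁]; simp
  have key : ∫ s in (0 : ℝ)..2 * π, (S s - a - b * cos s - c * sin s) ^ 2 =
      I2 + (-2 * a) * I0 + (-2 * b) * Ic + (-2 * c) * Is + a ^ 2 * (2 * π) + b ^ 2 * π +
        c ^ 2 * π := by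
    have h : ∀ s, (S s - a - b * cos s - c * sin s) ^ 2 =
        (((((((((S s ^ 2 + (-2 * a) * S s) + (-2 * b) * (S s * cos s)) +
          (-2 * c) * (S s * sin s)) + a ^ 2) + b ^ 2 * cos s ^ 2) + c ^ 2 * sin s ^ 2) +
          (2 * a * b) * cos s) + (2 * a * c) * sin s) + (2 * b * c) * (sin s * cos s)) := by
      intro s
      ring
    simp only [h]
    rw [intervalIntegral.integral_add (ii _ (by fun_prop)) (ii _ (by fun_prop)),
      intervalIntegral.integral_add (ii _ (by fun_prop)) (ii _ (by fun_prop)),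
      intervalIntegral.integral_add (ii _ (by fun_prop)) (ii _ (by fun_prop)),
      intervalIntegral.integral_add (ii _ (by fun_prop)) (ii _ (by fun_prop)),
      intervalIntegral.integral_add (ii _ (by fun_prop)) (ii _ (by fun_prop)),
      intervalIntegral.integral_add (ii _ (by fun_prop)) (ii _ (by fun_prop)),
      intervalIntegral.integral_add (ii _ (by fun_prop)) (ii _ (by fun_prop)),
      intervalIntegral.integral_add (ii _ (by fun_prop)) (ii _ (by fun_prop)),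
      intervalIntegral.integral_add (ii _ (by fun_prop)) (ii _ (by fun_prop))]
    simp only [intervalIntegral.integral_const_mul, intervalIntegral.integral_const, e1, e2, e3,
      e4, e5, ← hI0, ← hIc, ← hIs, ← hI2, smul_eq_mul]
    ring
  have hnn : 0 ≤ ∫ s in (0 : ℝ)..2 * π, (S s - a - b * cos s - c * sin s) ^ 2 :=
    intervalIntegral.integral_nonneg (by positivity) fun s _ => sq_nonneg _
  rw [key, ha, hb, hc] at hnn
  have e : I2 + (-2 * (I0 / (2 * π))) * I0 + (-2 * (Ic / π)) * Ic + (-2 * (Is / π)) * Is +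
      (I0 / (2 * π)) ^ 2 * (2 * π) + (Ic / π) ^ 2 * π + (Is / π) ^ 2 * π =
      I2 - (1 / (2 * π) * I0 ^ 2 + 1 / π * (Ic ^ 2 + Is ^ 2)) := by
    field_simp
    ring
  rw [e] at hnn
  linarith

end

end Pool.H21.VC
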