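import Pool.Agent.H21.VC.Defs
import Pool.Agent.H53.BN.MS

/-!
MP_6f80dc_co, row CPP: the Motzkin-Straus inequality in the form we need, for completely positive
kernels.

PROOF.
* ms_point: `Pool.H53.BN.eSum G (f a * f b) + nSum G (f i * f j) = (∑ f)^2` (unfold both, the two
  `if`s are complementary; `Finset.sum_mul_sum`), and `Pool.H53.BN.motzkin_straus G r hr hG n f hf _`
  (bound the card by `Finset.card_le_univ` and `Fintype.card_fin`) says
  `eSum ≤ (1 - 1/r) (∑ f)^2`.  So `(∑ f)^2 ≤ r * nSum`.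
* nSum_mono: termwise.
* cp_fin: sum ms_point over `k`, exchange sums (`nSum G (∑_k ..) = ∑_k nSum G (..)`), then nSum_mono.
* cp_int: integrate ms_point over `s` (`intervalIntegral.integral_mono`), exchange the finite sums with
  the integral (`intervalIntegral.integral_finsetSum`), then nSum_mono.
-/

set_option autoImplicit false

namespace Pool.H21.VC

noncomputable section

open Real

theorem ms_point {n r : ℕ} (G : SimpleGraph (Fin n)) (hr : 1 ≤ r) (hG : G.CliqueFree (r + 1))
    (f : Fin n → ℝ) (hf : ∀ i, 0 ≤ f i) :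
    (∑ i, f i) ^ 2 ≤ r * nSum G (fun i j => f i * f j) := by
  classical
  have h1 : Pool.H53.BN.eSum G (fun a b => f a * f b) + nSum G (fun i j => f i * f j)
      = (∑ i, f i) ^ 2 := by
    rw [pow_two, Finset.sum_mul_sum, Pool.H53.BN.eSum, nSum, ← Finset.sum_add_distrib]
    apply Finset.sum_congr rfl
    intro i _
    rw [← Finset.sum_add_distrib]
    apply Finset.sum_congr rfl
    intro j _
    by_cases h : G.Adj i j
    · simp [h]
    · simp [h]
  have h2 := Pool.H53.BN.motzkin_straus G r hr hG n f hf ((Finset.card_le_univ _).trans_eq (Fintype.card_fin n))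
  have hr0 : (0 : ℝ) < r := by exact_mod_cast hr
  have h3 : (1 / (r : ℝ)) * (∑ i, f i) ^ 2 ≤ nSum G (fun i j => f i * f j) := by
    nlinarith
  have h4 : (∑ i, f i) ^ 2 = r * ((1 / (r : ℝ)) * (∑ i, f i) ^ 2) := by
    field_simp
  rw [h4]
  exact mul_le_mul_of_nonneg_left h3 hr0.le

theorem nSum_mono {n : ℕ} (G : SimpleGraph (Fin n)) (Y Z : Fin n → Fin n → ℝ)
    (h : ∀ i j, Y i j ≤ Z i j) : nSum G Y ≤ nSum G Z := by
  unfold nSum
  refine Finset.sum_le_sum fun i _ => Finset.sum_le_sum fun j _ => ?_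
  split_ifs
  · exact le_rfl
  · exact h i j

theorem cp_fin {n r : ℕ} {κ : Type*} [Fintype κ] (G : SimpleGraph (Fin n)) (hr : 1 ≤ r)
    (hG : G.CliqueFree (r + 1)) (g : κ → Fin n → ℝ) (hg : ∀ k i, 0 ≤ g k i)
    (Z : Fin n → Fin n → ℝ) (hZ : ∀ i j, ∑ k, g k i * g k j ≤ Z i j) :
    ∑ k, (∑ i, g k i) ^ 2 ≤ r * nSum G Z := by
  have h1 : nSum G (fun i j => ∑ k, g k i * g k j) = ∑ k, nSum G (fun i j => g k i * g k j) := by
    unfold nSum
    symm
    rw [Finset.sum_comm]
    apply Finset.sum_congr rfl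
    intro i _
    rw [Finset.sum_comm]
    apply Finset.sum_congr rfl
    intro j _
    by_cases h : G.Adj i j
    · simp [h]
    · simp [h]
  calc ∑ k, (∑ i, g k i) ^ 2 ≤ ∑ k, r * nSum G (fun i j => g k i * g k j) :=
        Finset.sum_le_sum fun k _ => ms_point G hr hG (g k) (hg k)
    _ = r * nSum G (fun i j => ∑ k, g k i * g k j) := by rw [h1, Finset.mul_sum]
    _ ≤ r * nSum G Z := mul_le_mul_of_nonneg_left (nSum_mono G _ _ hZ) (Nat.cast_nonneg r)

theorem cp_int {n r : ℕ} (G : SimpleGraph (Fin n)) (hr : 1 ≤ r)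
    (hG : G.CliqueFree (r + 1)) (g : ℝ → Fin n → ℝ) (hc : ∀ i, Continuous fun s => g s i)
    (hg : ∀ s i, 0 ≤ g s i) (Z : Fin n → Fin n → ℝ)
    (hZ : ∀ i j, (∫ s in (0 : ℝ)..2 * π, g s i * g s j) ≤ Z i j) :
    (∫ s in (0 : ℝ)..2 * π, (∑ i, g s i) ^ 2) ≤ r * nSum G Z := by
  classical
  have hpi : (0 : ℝ) ≤ 2 * π := by positivity
  have hcs : ∀ i j, Continuous fun s => g s i * g s j := fun i j => (hc i).mul (hc j)
  have hcn : ∀ i j, Continuous fun s => (if G.Adj i j then (0 : ℝ) else g s i * g s j) := by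
    intro i j
    by_cases h : G.Adj i j
    · simp only [h, if_true]; exact continuous_const
    · simp only [h, if_false]; exact hcs i j
  have h1 : (∫ s in (0 : ℝ)..2 * π, nSum G (fun i j => g s i * g s j))
      = nSum G (fun i j => ∫ s in (0 : ℝ)..2 * π, g s i * g s j) := by
    unfold nSum
    rw [intervalIntegral.integral_finsetSum
      (fun i _ => (continuous_finsetSum _ fun j _ => hcn i j).intervalIntegrable _ _)]
    apply Finset.sum_congr rfl
    intro i _
    rw [intervalIntegral.integral_finsetSum (fun j _ => (hcn i j).intervalIntegrable _ _)]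
    apply Finset.sum_congr rfl
    intro j _
    by_cases h : G.Adj i j
    · simp [h]
    · simp [h]
  have hcN : Continuous fun s => nSum G (fun i j => g s i * g s j) := by
    unfold nSum
    exact continuous_finsetSum _ fun i _ => continuous_finsetSum _ fun j _ => hcn i j
  have hcS : Continuous fun s => (∑ i, g s i) ^ 2 :=
    (continuous_finsetSum _ fun i _ => hc i).pow 2
  calc (∫ s in (0 : ℝ)..2 * π, (∑ i, g s i) ^ 2)
      ≤ ∫ s in (0 : ℝ)..2 * π, r * nSum G (fun i j => g s i * g s j) :=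
        intervalIntegral.integral_mono hpi (hcS.intervalIntegrable _ _)
          ((continuous_const.mul hcN).intervalIntegrable _ _)
          (fun s => ms_point G hr hG (g s) (hg s))
    _ = r * nSum G (fun i j => ∫ s in (0 : ℝ)..2 * π, g s i * g s j) := by
        rw [intervalIntegral.integral_const_mul, h1]
    _ ≤ r * nSum G Z := mul_le_mul_of_nonneg_left (nSum_mono G _ _ hZ) (Nat.cast_nonneg r)

end

end Pool.H21.VC
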