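import Mathlib

/-!
MP_6f80dc_co, row Frame: for finitely many vectors of `ℝ^3` with pairwise nonnegative inner products
there is an orthonormal basis `p, q, e` such that all of them have nonnegative `p`- and `q`-coordinate.
(The conclusion is stated as Parseval's identity.)

PROOF.
* parseval: for `p · q = 0` and the cross product `e = p × q` (write its coordinates out), the identity
  `|p|²|q|² (x·y) = |q|² (p·x)(p·y) + |p|² (q·x)(q·y) + (e·x)(e·y)` holds for all `x, y`: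
  with `h : p·q = 0`, `linear_combination ((p·q)(x·y) - (p·x)(q·y) - (q·x)(p·y)) * h` up to sign
  (Gram determinant of `(p,q,x)` and `(p,q,y)`).  Dividing by `|p|²|q|²`, i.e. replacing `p` by `p/|p|`,
  `q` by `q/|q|`, `e` by `e/(|p||q|)`, gives the conclusion for any orthogonal pair of nonzero vectors.
* So it suffices to find nonzero `p, q` with `p · q = 0`, `p · v_i ≥ 0`, `q · v_i ≥ 0` for all `i`.
  If all `v_i = 0` take `p = e_1, q = e_2`.  Otherwise let `w = ∑_j v_j`.  For `v_i ≠ 0`: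
  `w · v_i = ∑_j v_j · v_i ≥ |v_i|² > 0`.  So `w ≠ 0`; choose `u ≠ 0` with `u · w = 0`
  (e.g. `(-w_1, w_0, 0)` if that is nonzero, else `w = (0,0,w_2)` and `u = (1,0,0)`).
  Among the `i` with `v_i ≠ 0` (a nonempty finite set; `Finset.exists_max_image`) choose `i` with
  `ρ = (u · v_i)/(w · v_i)` maximal.  Put `p = v_i`, `q = ρ w - u`.  Then for all `j` with `v_j ≠ 0`
  `q · v_j = ρ (w · v_j) - u · v_j ≥ 0` (and `= 0` for `v_j = 0`), `q · p = 0`, `p ≠ 0`,
  `p · v_j ≥ 0` by hypothesis, and `q ≠ 0` because `q · u = -|u|² ≠ 0`.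
-/

set_option autoImplicit false

namespace Pool.H21.VC

noncomputable section

theorem parseval (p q x y : Fin 3 → ℝ) (h : ∑ k, p k * q k = 0) :
    (∑ k, p k * p k) * (∑ k, q k * q k) * (∑ k, x k * y k)
      = (∑ k, q k * q k) * ((∑ k, p k * x k) * (∑ k, p k * y k))
        + (∑ k, p k * p k) * ((∑ k, q k * x k) * (∑ k, q k * y k))
        + ((p 1 * q 2 - p 2 * q 1) * x 0 + (p 2 * q 0 - p 0 * q 2) * x 1
            + (p 0 * q 1 - p 1 * q 0) * x 2)
          * ((p 1 * q 2 - p 2 * q 1) * y 0 + (p 2 * q 0 - p 0 * q 2) * y 1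
            + (p 0 * q 1 - p 1 * q 0) * y 2) := by
  simp only [Fin.sum_univ_three] at h ⊢
  linear_combination ((p 0 * q 0 + p 1 * q 1 + p 2 * q 2) * (x 0 * y 0 + x 1 * y 1 + x 2 * y 2) -
    (p 0 * x 0 + p 1 * x 1 + p 2 * x 2) * (q 0 * y 0 + q 1 * y 1 + q 2 * y 2) -
    (q 0 * x 0 + q 1 * x 1 + q 2 * x 2) * (p 0 * y 0 + p 1 * y 1 + p 2 * y 2)) * h

theorem frame_sum_scale (s : ℝ) (p x : Fin 3 → ℝ) :
    ∑ k, (s * p k) * x k = s * ∑ k, p k * x k := by
  rw [Finset.mul_sum]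
  exact Finset.sum_congr rfl fun k _ => by ring

theorem frame_pos {p : Fin 3 → ℝ} (hp : p ≠ 0) : 0 < ∑ k, p k * p k := by
  obtain ⟨k, hk⟩ : ∃ k, p k ≠ 0 := by
    by_contra hcon
    push Not at hcon
    exact hp (funext hcon)
  refine Finset.sum_pos' (fun i _ => mul_self_nonneg (p i)) ⟨k, Finset.mem_univ k, ?_⟩
  exact lt_of_le_of_ne (mul_self_nonneg _) (Ne.symm (mul_ne_zero hk hk))

/-- It is enough to find an orthogonal pair of nonzero vectors. -/
theorem frame_of {ι : Type*} (v : ι → Fin 3 → ℝ) (p q : Fin 3 → ℝ) (hp : p ≠ 0) (hq : q ≠ 0)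
    (h : ∑ k, p k * q k = 0) (h1 : ∀ i, 0 ≤ ∑ k, p k * v i k) (h2 : ∀ i, 0 ≤ ∑ k, q k * v i k) :
    ∃ p q e : Fin 3 → ℝ,
      (∀ x y : Fin 3 → ℝ, ∑ k, x k * y k
        = (∑ k, p k * x k) * (∑ k, p k * y k) + (∑ k, q k * x k) * (∑ k, q k * y k)
          + (∑ k, e k * x k) * (∑ k, e k * y k)) ∧
      (∀ i, 0 ≤ ∑ k, p k * v i k) ∧ (∀ i, 0 ≤ ∑ k, q k * v i k) := by
  have hP := frame_pos hp
  have hQ := frame_pos hq
  obtain ⟨P, hPd⟩ : ∃ P, P = ∑ k, p k * p k := ⟨_, rfl⟩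
  obtain ⟨Q, hQd⟩ : ∃ Q, Q = ∑ k, q k * q k := ⟨_, rfl⟩
  rw [← hPd] at hP
  rw [← hQd] at hQ
  obtain ⟨s, hs⟩ : ∃ s, s = (Real.sqrt P)⁻¹ := ⟨_, rfl⟩
  obtain ⟨t, ht⟩ : ∃ t, t = (Real.sqrt Q)⁻¹ := ⟨_, rfl⟩
  have hs0 : 0 ≤ s := by rw [hs]; positivity
  have ht0 : 0 ≤ t := by rw [ht]; positivity
  have hs2 : s * s * P = 1 := by
    rw [hs, ← mul_inv, Real.mul_self_sqrt hP.le, inv_mul_cancel₀ hP.ne']
  have ht2 : t * t * Q = 1 := by
    rw [ht, ← mul_inv, Real.mul_self_sqrt hQ.le, inv_mul_cancel₀ hQ.ne']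
  obtain ⟨e, he⟩ : ∃ e : Fin 3 → ℝ, e = ![p 1 * q 2 - p 2 * q 1, p 2 * q 0 - p 0 * q 2,
    p 0 * q 1 - p 1 * q 0] := ⟨_, rfl⟩
  have heq : ∀ x : Fin 3 → ℝ, ∑ k, e k * x k = (p 1 * q 2 - p 2 * q 1) * x 0 +
      (p 2 * q 0 - p 0 * q 2) * x 1 + (p 0 * q 1 - p 1 * q 0) * x 2 := by
    intro x
    rw [he, Fin.sum_univ_three]
    rfl
  refine ⟨fun k => s * p k, fun k => t * q k, fun k => (s * t) * e k, fun x y => ?_, fun i => ?_,
    fun i => ?_⟩
  · have hpar := parseval p q x y h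
    rw [← heq, ← heq, ← hPd, ← hQd] at hpar
    rw [frame_sum_scale, frame_sum_scale, frame_sum_scale, frame_sum_scale, frame_sum_scale,
      frame_sum_scale]
    obtain ⟨X, hX⟩ : ∃ X, X = ∑ k, x k * y k := ⟨_, rfl⟩
    obtain ⟨a, ha⟩ : ∃ a, a = ∑ k, p k * x k := ⟨_, rfl⟩
    obtain ⟨a', ha'⟩ : ∃ a', a' = ∑ k, p k * y k := ⟨_, rfl⟩
    obtain ⟨b, hb⟩ : ∃ b, b = ∑ k, q k * x k := ⟨_, rfl⟩
    obtain ⟨b', hb'⟩ : ∃ b', b' = ∑ k, q k * y k := ⟨_, rfl⟩
    obtain ⟨c, hc⟩ : ∃ c, c = ∑ k, e k * x k := ⟨_, rfl⟩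
    obtain ⟨c', hc'⟩ : ∃ c', c' = ∑ k, e k * y k := ⟨_, rfl⟩
    rw [← hX, ← ha, ← ha', ← hb, ← hb', ← hc, ← hc'] at hpar
    rw [← hX, ← ha, ← ha', ← hb, ← hb', ← hc, ← hc']
    have g1 : X = (s * s * P) * (t * t * Q) * X := by rw [hs2, ht2]; ring
    have g2 : (s * s * P) * (t * t * Q) * X = (s * s) * (t * t) * (P * Q * X) := by ring
    rw [g1, g2, hpar]
    have g3 : (s * s) * (t * t) * (Q * (a * a') + P * (b * b') + c * c') =
        (t * t * Q) * (s * a * (s * a')) + (s * s * P) * (t * b * (t * b')) +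
        s * t * c * (s * t * c') := by ring
    rw [g3, hs2, ht2]
    ring
  · rw [frame_sum_scale]
    exact mul_nonneg hs0 (h1 i)
  · rw [frame_sum_scale]
    exact mul_nonneg ht0 (h2 i)

theorem frame {ι : Type*} [Fintype ι] (v : ι → Fin 3 → ℝ)
    (h : ∀ i j, 0 ≤ ∑ k, v i k * v j k) :
    ∃ p q e : Fin 3 → ℝ,
      (∀ x y : Fin 3 → ℝ, ∑ k, x k * y k
        = (∑ k, p k * x k) * (∑ k, p k * y k) + (∑ k, q k * x k) * (∑ k, q k * y k)
          + (∑ k, e k * x k) * (∑ k, e k * y k)) ∧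
      (∀ i, 0 ≤ ∑ k, p k * v i k) ∧ (∀ i, 0 ≤ ∑ k, q k * v i k) := by
  classical
  by_cases h0 : ∃ i, v i ≠ 0
  · obtain ⟨i0, hi0⟩ := h0
    obtain ⟨w, hw⟩ : ∃ w : Fin 3 → ℝ, w = fun k => ∑ j, v j k := ⟨_, rfl⟩
    have hwv : ∀ x : Fin 3 → ℝ, ∑ k, w k * x k = ∑ j, ∑ k, v j k * x k := by
      intro x
      rw [Finset.sum_comm, hw]
      exact Finset.sum_congr rfl fun k _ => by rw [Finset.sum_mul]
    have hwpos : ∀ i, v i ≠ 0 → 0 < ∑ k, w k * v i k := by
      intro i hi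
      rw [hwv]
      exact lt_of_lt_of_le (frame_pos hi)
        (Finset.single_le_sum (f := fun j => ∑ k, v j k * v i k) (fun j _ => h j i)
          (Finset.mem_univ i))
    have hu : ∃ u : Fin 3 → ℝ, u ≠ 0 ∧ ∑ k, u k * w k = 0 := by
      by_cases h1 : w 0 = 0 ∧ w 1 = 0
      · refine ⟨![1, 0, 0], ?_, ?_⟩
        · intro h2
          have := congrFun h2 0
          simp at this
        · rw [Fin.sum_univ_three]
          simp [h1.1]
      · refine ⟨![-w 1, w 0, 0], ?_, ?_⟩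
        · intro h2
          apply h1
          have h3 := congrFun h2 0
          have h4 := congrFun h2 1
          simp at h3 h4
          exact ⟨h4, h3⟩
        · rw [Fin.sum_univ_three]
          simp
          ring
    obtain ⟨u, hu0, huw⟩ := hu
    obtain ⟨i, hi, hmax⟩ := Finset.exists_max_image (Finset.univ.filter fun i => v i ≠ 0)
      (fun i => (∑ k, u k * v i k) / (∑ k, w k * v i k))
      ⟨i0, Finset.mem_filter.2 ⟨Finset.mem_univ _, hi0⟩⟩
    have hvi : v i ≠ 0 := (Finset.mem_filter.1 hi).2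
    obtain ⟨ρ, hρ⟩ : ∃ ρ, ρ = (∑ k, u k * v i k) / (∑ k, w k * v i k) := ⟨_, rfl⟩
    have hqx : ∀ x : Fin 3 → ℝ, ∑ k, (ρ * w k - u k) * x k =
        ρ * ∑ k, w k * x k - ∑ k, u k * x k := by
      intro x
      rw [Finset.mul_sum, ← Finset.sum_sub_distrib]
      exact Finset.sum_congr rfl fun k _ => by ring
    refine frame_of v (v i) (fun k => ρ * w k - u k) hvi ?_ ?_ (fun j => h i j) fun j => ?_
    · intro hq
      have h1 := hqx u
      have h2 : ∑ k, (ρ * w k - u k) * u k = 0 := by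
        refine Finset.sum_eq_zero fun k _ => ?_
        have h3 : ρ * w k - u k = 0 := congrFun hq k
        rw [h3, zero_mul]
      have h3 : ∑ k, w k * u k = 0 := by
        rw [← huw]
        exact Finset.sum_congr rfl fun k _ => mul_comm _ _
      rw [h2, h3, mul_zero, zero_sub] at h1
      have := frame_pos hu0
      linarith
    · have h1 := hqx (v i)
      have h2 : ∑ k, v i k * (ρ * w k - u k) = ∑ k, (ρ * w k - u k) * v i k :=
        Finset.sum_congr rfl fun k _ => mul_comm _ _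
      rw [h2, h1, hρ, div_mul_cancel₀ _ (hwpos i hvi).ne', sub_self]
    · show 0 ≤ ∑ k, (ρ * w k - u k) * v j k
      rw [hqx]
      by_cases hj : v j = 0
      · rw [hj]
        simp
      · have h1 := hmax j (Finset.mem_filter.2 ⟨Finset.mem_univ _, hj⟩)
        rw [← hρ] at h1
        rw [div_le_iff₀ (hwpos j hj)] at h1
        linarith
  · push Not at h0
    refine frame_of v ![1, 0, 0] ![0, 1, 0] ?_ ?_ ?_ (fun i => ?_) fun i => ?_
    · intro h2
      have := congrFun h2 0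
      simp at this
    · intro h2
      have := congrFun h2 1
      simp at this
    · rw [Fin.sum_univ_three]
      simp
    · rw [h0 i]
      simp
    · rw [h0 i]
      simp

end

end Pool.H21.VC
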