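import Pool.Agent.H21.VC.CPP
import Pool.Agent.H21.VC.Frame

/-!
MP_6f80dc_co, row CoreA: the upper bound `C₃ ≤ 2` for Gram matrices.

PROOF.  Take `p, q, e` from `frame` and put `a_i = p·v_i ≥ 0`, `b_i = q·v_i ≥ 0`, `c_i = e·v_i`, so
`Z i j := ∑_k v i k v j k = a_i a_j + b_i b_j + c_i c_j`, `Z i j ≥ 0`.
Apply `cp_fin` with `κ = Bool × Fin 3` (or `Fin 6`): for sign `+` the three functions are
`a_i, b_i, c_i` if `0 ≤ c_i` and `0` otherwise; for sign `-` they are `a_i, b_i, -c_i` if `c_i < 0` and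
`0` otherwise.  All are nonnegative, and `∑_k g k i * g k j` is `Z i j` if `c_i, c_j` are of the same
kind and `0 ≤ Z i j` otherwise.  With `A₊ = ∑_{c_i ≥ 0} a_i` etc. (sums of the functions),
`∑_k (∑_i g k i)^2 = A₊²+B₊²+C₊²+A₋²+B₋²+C₋²`, while
`∑_i ∑_j Z i j = (∑ a_i)²+(∑ b_i)²+(∑ c_i)² = (A₊+A₋)²+(B₊+B₋)²+(C₊-C₋)² ≤ 2 (…)`.
-/

set_option autoImplicit false

namespace Pool.H21.VC

noncomputable section

/-- The six nonnegative functions. -/
def corea_g {n : ℕ} (a b c : Fin n → ℝ) (k : Bool × Fin 3) (i : Fin n) : ℝ :=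
  if 0 ≤ c i then (if k.1 then ![a i, b i, c i] k.2 else 0)
  else (if k.1 then 0 else ![a i, b i, -c i] k.2)

lemma corea_nonneg {n : ℕ} {a b c : Fin n → ℝ} (ha : ∀ i, 0 ≤ a i) (hb : ∀ i, 0 ≤ b i)
    (k : Bool × Fin 3) (i : Fin n) : 0 ≤ corea_g a b c k i := by
  obtain ⟨s, t⟩ := k
  have h1 := ha i
  have h2 := hb i
  unfold corea_g
  split_ifs with h3 h4 h5
  · fin_cases t
    · exact h1
    · exact h2
    · exact h3
  · exact le_refl 0
  · exact le_refl 0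
  · fin_cases t
    · exact h1
    · exact h2
    · show 0 ≤ -c i
      linarith

lemma corea_mul {n : ℕ} (a b c : Fin n → ℝ) (i j : Fin n)
    (h : 0 ≤ a i * a j + b i * b j + c i * c j) :
    ∑ k, corea_g a b c k i * corea_g a b c k j ≤ a i * a j + b i * b j + c i * c j := by
  rw [Fintype.sum_prod_type]
  simp only [Fintype.sum_bool, Fin.sum_univ_three, corea_g]
  by_cases h1 : 0 ≤ c i <;> by_cases h2 : 0 ≤ c j
  · simp [h1, h2]
  · simp only [h1, h2]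
    simpa using h
  · simp only [h1, h2]
    simpa using h
  · simp [h1, h2]

lemma corea_sq {n : ℕ} (a b c : Fin n → ℝ) :
    (∑ i, a i) ^ 2 + (∑ i, b i) ^ 2 + (∑ i, c i) ^ 2 ≤
      2 * ∑ k, (∑ i, corea_g a b c k i) ^ 2 := by
  have e : ∀ d : Fin n → ℝ, ∑ i, d i =
      ∑ i, (if 0 ≤ c i then d i else 0) + ∑ i, (if 0 ≤ c i then 0 else d i) := by
    intro d
    rw [← Finset.sum_add_distrib]
    refine Finset.sum_congr rfl fun i _ => ?_
    split_ifs <;> simp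
  have e0 : ∑ k, (∑ i, corea_g a b c k i) ^ 2 =
      (∑ i, (if 0 ≤ c i then a i else 0)) ^ 2 + (∑ i, (if 0 ≤ c i then b i else 0)) ^ 2 +
        (∑ i, (if 0 ≤ c i then c i else 0)) ^ 2 +
      ((∑ i, (if 0 ≤ c i then 0 else a i)) ^ 2 + (∑ i, (if 0 ≤ c i then 0 else b i)) ^ 2 +
        (∑ i, (if 0 ≤ c i then 0 else -c i)) ^ 2) := by
    rw [Fintype.sum_prod_type]
    simp only [Fintype.sum_bool, Fin.sum_univ_three, corea_g]
    simp
  have e3 : ∑ i, (if 0 ≤ c i then 0 else -c i) = - ∑ i, (if 0 ≤ c i then 0 else c i) := by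
    rw [← Finset.sum_neg_distrib]
    refine Finset.sum_congr rfl fun i _ => ?_
    split_ifs <;> simp
  rw [e0, e3, e a, e b, e c]
  nlinarith [sq_nonneg (∑ i, (if 0 ≤ c i then a i else 0) - ∑ i, (if 0 ≤ c i then 0 else a i)),
    sq_nonneg (∑ i, (if 0 ≤ c i then b i else 0) - ∑ i, (if 0 ≤ c i then 0 else b i)),
    sq_nonneg (∑ i, (if 0 ≤ c i then c i else 0) - ∑ i, (if 0 ≤ c i then 0 else c i))]

theorem coreA {n r : ℕ} (G : SimpleGraph (Fin n)) (hr : 1 ≤ r) (hG : G.CliqueFree (r + 1))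
    (v : Fin n → Fin 3 → ℝ) (h : ∀ i j, 0 ≤ ∑ k, v i k * v j k) :
    ∑ i, ∑ j, ∑ k, v i k * v j k ≤ 2 * (r * nSum G (fun i j => ∑ k, v i k * v j k)) := by
  obtain ⟨p, q, e, h1, h2, h3⟩ := frame v h
  obtain ⟨a, ha⟩ : ∃ a : Fin n → ℝ, a = fun i => ∑ k, p k * v i k := ⟨_, rfl⟩
  obtain ⟨b, hb⟩ : ∃ b : Fin n → ℝ, b = fun i => ∑ k, q k * v i k := ⟨_, rfl⟩
  obtain ⟨c, hc⟩ : ∃ c : Fin n → ℝ, c = fun i => ∑ k, e k * v i k := ⟨_, rfl⟩
  have hZ : ∀ i j, ∑ k, v i k * v j k = a i * a j + b i * b j + c i * c j := by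
    intro i j
    rw [ha, hb, hc]
    exact h1 (v i) (v j)
  have ha0 : ∀ i, 0 ≤ a i := by rw [ha]; exact h2
  have hb0 : ∀ i, 0 ≤ b i := by rw [hb]; exact h3
  have key := cp_fin G hr hG (corea_g a b c) (corea_nonneg ha0 hb0)
    (fun i j => ∑ k, v i k * v j k) (fun i j => by
      show _ ≤ ∑ k, v i k * v j k
      rw [hZ]
      exact corea_mul a b c i j (by rw [← hZ]; exact h i j))
  have e1 : ∑ i, ∑ j, ∑ k, v i k * v j k =
      (∑ i, a i) ^ 2 + (∑ i, b i) ^ 2 + (∑ i, c i) ^ 2 := by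
    simp only [hZ, Finset.sum_add_distrib]
    rw [sq, sq, sq, Finset.sum_mul_sum, Finset.sum_mul_sum, Finset.sum_mul_sum]
  rw [e1]
  have := corea_sq a b c
  linarith

end

end Pool.H21.VC
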