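import Pool.Agent.H21.VC.Defs

/-!
MP_6f80dc_co, row Rec: the integrals `A n = ∫_0^π √(sin s) sin^n s ds`.

PROOF.
* A_rec: for `F(s) = - cos s * (√(sin s) * sin^{n+1} s)`, `F` is continuous, `F 0 = F π = 0`, and on
  `(0, π)`, where `sin s > 0`,
  `F' = sin · √sin · sin^{n+1} - cos · (n + 3/2) √sin · sin^n · cos`
      `= √sin sin^{n+2} - (n+3/2) √sin sin^n (1 - sin²) = (n + 5/2) √sin sin^{n+2} - (n+3/2) √sin sin^n`
  (derivative of `√(sin s)` is `cos s / (2 √(sin s))` and `sin^{n+1}/√sin = √sin sin^n`).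
  `intervalIntegral.integral_eq_sub_of_hasDerivAt_of_le` (continuous on the closed interval, derivative on
  the open one) gives `0 = (n+5/2) A (n+2) - (n+3/2) A n`.
* A_cs: Cauchy-Schwarz twice (`S m = ∫_0^π sin^m`): `S(n+1)² ≤ A n * A (n+1)` since
  `sin^{n+1} = √(√sin sin^n) * √(√sin sin^{n+1})`, and `A (n+1)² ≤ S (n+1) * S (n+2)` since
  `√sin sin^{n+1} = √(sin^{n+1}) √(sin^{n+2})`.  (Cauchy-Schwarz for continuous functions on an interval:
  from `∫ (λ f - μ g)² ≥ 0`; or prove directly `2 x y ≤ λ x² + y²/λ`.)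
  Hence `S(n+1)^4 ≤ (A n)² (A (n+1))² ≤ (A n)² S(n+1) S(n+2)`; divide by `S (n+1) > 0`.
-/

set_option autoImplicit false

namespace Pool.H21.VC

noncomputable section

open Real

theorem rec_cont (n : ℕ) : Continuous fun s : ℝ => √(sin s) * sin s ^ n :=
  (continuous_sin.sqrt).mul (continuous_sin.pow n)

theorem A_rec (n : ℕ) : A (n + 2) = ((n : ℝ) + 3 / 2) / ((n : ℝ) + 5 / 2) * A n := by
  have hd : ∀ x ∈ Set.Ioo (0 : ℝ) π, HasDerivAt (fun s => -cos s * (√(sin s) * sin s ^ (n + 1)))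
      (((n : ℝ) + 5 / 2) * (√(sin x) * sin x ^ (n + 2)) -
        ((n : ℝ) + 3 / 2) * (√(sin x) * sin x ^ n)) x := by
    intro x hx
    have hpos : 0 < sin x := sin_pos_of_mem_Ioo hx
    have h1 : HasDerivAt (fun s => √(sin s)) (cos x / (2 * √(sin x))) x :=
      (hasDerivAt_sin x).sqrt hpos.ne'
    have h2 := (hasDerivAt_sin x).pow (n + 1)
    have h3 := (hasDerivAt_cos x).neg.mul (h1.mul h2)
    refine h3.congr_deriv ?_
    obtain ⟨q, hq, hq2⟩ : ∃ q : ℝ, 0 < q ∧ q ^ 2 = sin x :=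
      ⟨√(sin x), sqrt_pos.2 hpos, sq_sqrt hpos.le⟩
    have hs : √(sin x) = q := by
      rw [← hq2, sqrt_sq hq.le]
    have hc : cos x ^ 2 = 1 - q ^ 2 * q ^ 2 := by
      have := sin_sq_add_cos_sq x
      rw [← hq2] at this
      linear_combination this
    rw [Nat.add_sub_cancel]
    simp only [Pi.neg_apply, Pi.mul_apply, Pi.pow_apply]
    rw [hs, ← hq2]
    push_cast
    have e1 : cos x / (2 * q) * (q ^ 2) ^ (n + 1) = cos x * (q * (q ^ 2) ^ n) / 2 := by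
      field_simp
      ring
    have e2 : - -sin x * (q * (q ^ 2) ^ (n + 1)) +
        -cos x * (cos x / (2 * q) * (q ^ 2) ^ (n + 1) + q * (((n : ℝ) + 1) * (q ^ 2) ^ n * cos x)) =
        sin x * (q * (q ^ 2) ^ (n + 1)) - cos x ^ 2 * ((n : ℝ) + 3 / 2) * (q * (q ^ 2) ^ n) := by
      rw [e1]
      ring
    rw [← hq2, hc] at e2
    rw [e2]
    ring
  have hc : ContinuousOn (fun s => -cos s * (√(sin s) * sin s ^ (n + 1))) (Set.Icc 0 π) :=
    (continuous_cos.neg.mul (rec_cont (n + 1))).continuousOn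
  have hi2 : IntervalIntegrable (fun s => √(sin s) * sin s ^ (n + 2)) MeasureTheory.volume 0 π :=
    (rec_cont (n + 2)).intervalIntegrable _ _
  have hi0 : IntervalIntegrable (fun s => √(sin s) * sin s ^ n) MeasureTheory.volume 0 π :=
    (rec_cont n).intervalIntegrable _ _
  have h := intervalIntegral.integral_eq_sub_of_hasDerivAt_of_le pi_pos.le hc hd
    ((hi2.const_mul _).sub (hi0.const_mul _))
  rw [intervalIntegral.integral_sub (hi2.const_mul _) (hi0.const_mul _),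
    intervalIntegral.integral_const_mul, intervalIntegral.integral_const_mul, sin_pi, sin_zero,
    sqrt_zero, zero_mul, mul_zero, mul_zero, sub_zero] at h
  have h' : ((n : ℝ) + 5 / 2) * A (n + 2) - ((n : ℝ) + 3 / 2) * A n = 0 := h
  have hn : (0 : ℝ) < (n : ℝ) + 5 / 2 := by positivity
  rw [div_mul_eq_mul_div, eq_div_iff hn.ne']
  linarith

theorem A_nonneg (n : ℕ) : 0 ≤ A n :=
  intervalIntegral.integral_nonneg pi_pos.le fun _ hs =>
    mul_nonneg (sqrt_nonneg _) (pow_nonneg (sin_nonneg_of_mem_Icc hs) _)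

theorem rec_cs {f g : ℝ → ℝ} (hf : Continuous f) (hg : Continuous g) :
    (∫ s in (0 : ℝ)..π, f s * g s) ^ 2 ≤
      (∫ s in (0 : ℝ)..π, f s ^ 2) * ∫ s in (0 : ℝ)..π, g s ^ 2 := by
  have h : ∀ t : ℝ, 0 ≤ (∫ s in (0 : ℝ)..π, g s ^ 2) * (t * t) +
      (-2 * ∫ s in (0 : ℝ)..π, f s * g s) * t + ∫ s in (0 : ℝ)..π, f s ^ 2 := by
    intro t
    have h1 : 0 ≤ ∫ s in (0 : ℝ)..π, (f s - t * g s) ^ 2 :=
      intervalIntegral.integral_nonneg pi_pos.le fun _ _ => sq_nonneg _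
    have e : ∀ s, (f s - t * g s) ^ 2 = t * t * g s ^ 2 + (-2 * t) * (f s * g s) + f s ^ 2 := by
      intro s
      ring
    simp only [e] at h1
    have i1 : IntervalIntegrable (fun s => t * t * g s ^ 2) MeasureTheory.volume 0 π :=
      (continuous_const.mul (hg.pow 2)).intervalIntegrable _ _
    have i2 : IntervalIntegrable (fun s => (-2 * t) * (f s * g s)) MeasureTheory.volume 0 π :=
      (continuous_const.mul (hf.mul hg)).intervalIntegrable _ _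
    have i3 : IntervalIntegrable (fun s => f s ^ 2) MeasureTheory.volume 0 π :=
      (hf.pow 2).intervalIntegrable _ _
    rw [intervalIntegral.integral_add (i1.add i2) i3, intervalIntegral.integral_add i1 i2,
      intervalIntegral.integral_const_mul, intervalIntegral.integral_const_mul] at h1
    linarith
  have h2 := discrim_le_zero h
  rw [discrim] at h2
  nlinarith

theorem rec_congr {f g : ℝ → ℝ} (h : ∀ s, 0 ≤ sin s → f s = g s) :
    ∫ s in (0 : ℝ)..π, f s = ∫ s in (0 : ℝ)..π, g s := by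
  apply intervalIntegral.integral_congr
  intro s hs
  rw [Set.uIcc_of_le pi_pos.le] at hs
  exact h s (sin_nonneg_of_mem_Icc hs)

theorem A_cs (n : ℕ) :
    (∫ s in (0 : ℝ)..π, sin s ^ (n + 1)) ^ 3 ≤ (∫ s in (0 : ℝ)..π, sin s ^ (n + 2)) * A n ^ 2 := by
  have hr : Continuous fun s : ℝ => √(√(sin s)) := continuous_sin.sqrt.sqrt
  have h2 : ∀ s, 0 ≤ sin s → √(√(sin s)) ^ 2 = √(sin s) := fun s _ => sq_sqrt (sqrt_nonneg _)
  have h4 : ∀ s, 0 ≤ sin s → √(√(sin s)) ^ 4 = sin s := by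
    intro s hs
    have e : √(√(sin s)) ^ 4 = (√(√(sin s)) ^ 2) ^ 2 := by ring
    rw [e, h2 s hs, sq_sqrt hs]
  have c1 := rec_cs (f := fun s => √(√(sin s)) ^ (2 * n + 1))
    (g := fun s => √(√(sin s)) ^ (2 * n + 3)) (hr.pow (2 * n + 1)) (hr.pow (2 * n + 3))
  have c2 := rec_cs (f := fun s => √(√(sin s)) ^ (2 * n + 2))
    (g := fun s => √(√(sin s)) ^ (2 * n + 4)) (hr.pow (2 * n + 2)) (hr.pow (2 * n + 4))
  have e1 : ∫ s in (0 : ℝ)..π, √(√(sin s)) ^ (2 * n + 1) * √(√(sin s)) ^ (2 * n + 3) =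
      ∫ s in (0 : ℝ)..π, sin s ^ (n + 1) := rec_congr fun s hs => by
    calc √(√(sin s)) ^ (2 * n + 1) * √(√(sin s)) ^ (2 * n + 3) =
        (√(√(sin s)) ^ 4) ^ (n + 1) := by ring
      _ = _ := by rw [h4 s hs]
  have e2 : ∫ s in (0 : ℝ)..π, (√(√(sin s)) ^ (2 * n + 1)) ^ 2 = A n := rec_congr fun s hs => by
    calc (√(√(sin s)) ^ (2 * n + 1)) ^ 2 = √(√(sin s)) ^ 2 * (√(√(sin s)) ^ 4) ^ n := by ring
      _ = _ := by rw [h4 s hs, h2 s hs]
  have e3 : ∫ s in (0 : ℝ)..π, (√(√(sin s)) ^ (2 * n + 3)) ^ 2 = A (n + 1) :=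
    rec_congr fun s hs => by
    calc (√(√(sin s)) ^ (2 * n + 3)) ^ 2 =
        √(√(sin s)) ^ 2 * (√(√(sin s)) ^ 4) ^ (n + 1) := by ring
      _ = _ := by rw [h4 s hs, h2 s hs]
  have e4 : ∫ s in (0 : ℝ)..π, √(√(sin s)) ^ (2 * n + 2) * √(√(sin s)) ^ (2 * n + 4) =
      A (n + 1) := rec_congr fun s hs => by
    calc √(√(sin s)) ^ (2 * n + 2) * √(√(sin s)) ^ (2 * n + 4) =
        √(√(sin s)) ^ 2 * (√(√(sin s)) ^ 4) ^ (n + 1) := by ring
      _ = _ := by rw [h4 s hs, h2 s hs]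
  have e5 : ∫ s in (0 : ℝ)..π, (√(√(sin s)) ^ (2 * n + 2)) ^ 2 =
      ∫ s in (0 : ℝ)..π, sin s ^ (n + 1) := rec_congr fun s hs => by
    calc (√(√(sin s)) ^ (2 * n + 2)) ^ 2 = (√(√(sin s)) ^ 4) ^ (n + 1) := by ring
      _ = _ := by rw [h4 s hs]
  have e6 : ∫ s in (0 : ℝ)..π, (√(√(sin s)) ^ (2 * n + 4)) ^ 2 =
      ∫ s in (0 : ℝ)..π, sin s ^ (n + 2) := rec_congr fun s hs => by
    calc (√(√(sin s)) ^ (2 * n + 4)) ^ 2 = (√(√(sin s)) ^ 4) ^ (n + 2) := by ring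
      _ = _ := by rw [h4 s hs]
  rw [e1, e2, e3] at c1
  rw [e4, e5, e6] at c2
  have p1 : 0 < ∫ s in (0 : ℝ)..π, sin s ^ (n + 1) := integral_sin_pow_pos _
  have p2 : 0 ≤ ∫ s in (0 : ℝ)..π, sin s ^ (n + 2) := (integral_sin_pow_pos _).le
  have hA := A_nonneg n
  have hA1 := A_nonneg (n + 1)
  generalize (∫ s in (0 : ℝ)..π, sin s ^ (n + 1)) = x at *
  generalize (∫ s in (0 : ℝ)..π, sin s ^ (n + 2)) = y at *
  have k1 : (x ^ 2) ^ 2 ≤ (A n * A (n + 1)) ^ 2 := pow_le_pow_left₀ (sq_nonneg x) c1 2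
  have k2 : A n ^ 2 * A (n + 1) ^ 2 ≤ A n ^ 2 * (x * y) :=
    mul_le_mul_of_nonneg_left c2 (sq_nonneg _)
  have k3 : x * x ^ 3 ≤ x * (y * A n ^ 2) := by
    calc x * x ^ 3 = (x ^ 2) ^ 2 := by ring
      _ ≤ (A n * A (n + 1)) ^ 2 := k1
      _ = A n ^ 2 * A (n + 1) ^ 2 := by ring
      _ ≤ A n ^ 2 * (x * y) := k2
      _ = x * (y * A n ^ 2) := by ring
  exact le_of_mul_le_mul_left k3 p1

end

end Pool.H21.VC
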