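import Pool.Agent.H21.VC.KerA
import Pool.Agent.H21.VC.Rec

/-!
MP_6f80dc_co, row Mom: the moments of `fK`.

PROOF.  Everything is `2π`-periodic and continuous, so `∫_0^{2π} F(s) ds = ∫_{-π/2}^{3π/2} F(s+θ) ds`.
On `[π/2, 3π/2]`, `cos ≤ 0` and `fK = 0`; on `[-π/2, π/2]`, `fK s = √(cos s) (1 - P cos² s)`,
`P = 173/1000`.  Substituting `s ↦ π/2 - s` (`cos (π/2 - s) = sin s`):
`∫_{-π/2}^{π/2} √(cos s) cos^n s ds = A n`.  So
* `∫ fK = A 0 - P A 2`, `A 2 = (3/5) A 0` by `A_rec`;
* `∫ fK(s - θ) cos s ds = ∫ fK(u) cos (u + θ) du = cos θ ∫ fK cos - sin θ ∫ fK sin`, where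
  `∫ fK cos = A 1 - P A 3 = (1 - (5/7) P) A 1` and `∫ fK sin = 0` over `[-π, π]` because `fK` is even
  (`fK_even`; substitute `u ↦ -u`);
* same for `sin s`: `sin (u + θ) = sin u cos θ + cos u sin θ`.
-/

set_option autoImplicit false

namespace Pool.H21.VC

noncomputable section

open Real

theorem mom_A (m : ℕ) : ∫ u in (-(π / 2))..(π / 2), √(cos u) * cos u ^ m = A m := by
  have h := intervalIntegral.integral_comp_sub_left (a := 0) (b := π)
    (fun u => √(cos u) * cos u ^ m) (π / 2)
  have e1 : π / 2 - π = -(π / 2) := by ring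
  have e2 : π / 2 - 0 = π / 2 := by ring
  rw [e1, e2] at h
  rw [← h]
  unfold A
  refine intervalIntegral.integral_congr fun s _ => ?_
  simp only [cos_pi_div_two_sub]

theorem mom_zero {u : ℝ} (h : cos u ≤ 0) : fK u = 0 := by
  unfold fK
  rw [max_eq_right h, sqrt_zero, zero_mul]

theorem mom_cont (n : ℕ) : Continuous fun u => fK u * cos u ^ n :=
  fK_continuous.mul (continuous_cos.pow n)

theorem mom_I (n : ℕ) :
    ∫ u in (-π)..π, fK u * cos u ^ n = A n - 173 / 1000 * A (n + 2) := by
  have hi : ∀ a b : ℝ, IntervalIntegrable (fun u => fK u * cos u ^ n) MeasureTheory.volume a b :=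
    fun a b => (mom_cont n).intervalIntegrable a b
  have hpi := pi_pos
  rw [← intervalIntegral.integral_add_adjacent_intervals (hi (-π) (-(π / 2))) (hi (-(π / 2)) π),
    ← intervalIntegral.integral_add_adjacent_intervals (hi (-(π / 2)) (π / 2)) (hi (π / 2) π)]
  have h1 : ∫ u in (-π)..(-(π / 2)), fK u * cos u ^ n = 0 := by
    have : ∫ u in (-π)..(-(π / 2)), fK u * cos u ^ n = ∫ u in (-π)..(-(π / 2)), (0 : ℝ) := by
      refine intervalIntegral.integral_congr fun u hu => ?_
      rw [Set.uIcc_of_le (by linarith)] at hu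
      have hc : cos u ≤ 0 := by
        rw [← cos_neg]
        exact cos_nonpos_of_pi_div_two_le_of_le (by linarith [hu.2]) (by linarith [hu.1])
      simp only [mom_zero hc, zero_mul]
    rw [this, intervalIntegral.integral_zero]
  have h3 : ∫ u in (π / 2)..π, fK u * cos u ^ n = 0 := by
    have : ∫ u in (π / 2)..π, fK u * cos u ^ n = ∫ u in (π / 2)..π, (0 : ℝ) := by
      refine intervalIntegral.integral_congr fun u hu => ?_
      rw [Set.uIcc_of_le (by linarith)] at hu
      have hc : cos u ≤ 0 :=
        cos_nonpos_of_pi_div_two_le_of_le hu.1 (by linarith [hu.2])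
      simp only [mom_zero hc, zero_mul]
    rw [this, intervalIntegral.integral_zero]
  have h2 : ∫ u in (-(π / 2))..(π / 2), fK u * cos u ^ n =
      A n - 173 / 1000 * A (n + 2) := by
    rw [← mom_A n, ← mom_A (n + 2), ← intervalIntegral.integral_const_mul,
      ← intervalIntegral.integral_sub]
    · refine intervalIntegral.integral_congr fun u hu => ?_
      rw [Set.uIcc_of_le (by linarith)] at hu
      have hc : 0 ≤ cos u := cos_nonneg_of_mem_Icc ⟨by linarith [hu.1], hu.2⟩
      simp only [fK, max_eq_left hc]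
      ring
    · exact ((continuous_sqrt.comp continuous_cos).mul (continuous_cos.pow n)).intervalIntegrable _ _
    · exact (((continuous_sqrt.comp continuous_cos).mul
        (continuous_cos.pow (n + 2))).const_mul _).intervalIntegrable _ _
  rw [h1, h2, h3]
  ring

theorem mom_sin : ∫ u in (-π)..π, fK u * sin u = 0 := by
  have h := intervalIntegral.integral_comp_neg (a := -π) (b := π) (fun u => fK u * sin u)
  rw [neg_neg] at h
  have h2 : ∫ u in (-π)..π, fK (-u) * sin (-u) = -∫ u in (-π)..π, fK u * sin u := by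
    rw [← intervalIntegral.integral_neg]
    refine intervalIntegral.integral_congr fun u _ => ?_
    simp only [fK_even, sin_neg]
    ring
  rw [h2] at h
  linarith

theorem mom_shift (θ : ℝ) (h : ℝ → ℝ) (hp : Function.Periodic h (2 * π)) :
    ∫ s in (0 : ℝ)..2 * π, fK (s - θ) * h s = ∫ u in (-π)..π, fK u * h (u + θ) := by
  have hP : Function.Periodic (fun s => fK (s - θ) * h s) (2 * π) := by
    intro s
    simp only [hp s]
    rw [show s + 2 * π - θ = s - θ + 2 * π by ring, fK_periodic]
  have h1 := hP.intervalIntegral_add_eq 0 (θ - π)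
  have h2 := intervalIntegral.integral_comp_add_right (a := -π) (b := π)
    (fun s => fK (s - θ) * h s) θ
  have e1 : (0 : ℝ) + 2 * π = 2 * π := by ring
  have e2 : θ - π + 2 * π = π + θ := by ring
  have e3 : θ - π = -π + θ := by ring
  rw [e1, e2, e3] at h1
  rw [h1, ← h2]
  refine intervalIntegral.integral_congr fun u _ => ?_
  simp only [add_sub_cancel_right]

theorem mom_cos1 : ∫ u in (-π)..π, fK u * cos u = (1 - 5 / 7 * (173 / 1000)) * A 1 := by
  have h := mom_I 1
  have h2 := A_rec 1
  simp only [pow_one] at h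
  rw [h, h2]
  push_cast
  ring

theorem mom0 (θ : ℝ) :
    ∫ s in (0 : ℝ)..2 * π, fK (s - θ) = (1 - 3 / 5 * (173 / 1000)) * A 0 := by
  have h := mom_shift θ (fun _ => 1) (fun _ => rfl)
  simp only [mul_one] at h
  have h1 := mom_I 0
  have h2 := A_rec 0
  simp only [pow_zero, mul_one] at h1
  rw [h, h1, h2]
  push_cast
  ring

theorem momc (θ : ℝ) :
    ∫ s in (0 : ℝ)..2 * π, fK (s - θ) * cos s = (1 - 5 / 7 * (173 / 1000)) * A 1 * cos θ := by
  rw [mom_shift θ cos cos_periodic]
  have h1 : ∫ u in (-π)..π, fK u * cos (u + θ) =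
      ∫ u in (-π)..π, (cos θ * (fK u * cos u) - sin θ * (fK u * sin u)) := by
    refine intervalIntegral.integral_congr fun u _ => ?_
    simp only [cos_add]
    ring
  rw [h1, intervalIntegral.integral_sub, intervalIntegral.integral_const_mul,
    intervalIntegral.integral_const_mul, mom_cos1, mom_sin]
  · ring
  · exact ((fK_continuous.mul continuous_cos).const_mul _).intervalIntegrable _ _
  · exact ((fK_continuous.mul continuous_sin).const_mul _).intervalIntegrable _ _

theorem moms (θ : ℝ) :
    ∫ s in (0 : ℝ)..2 * π, fK (s - θ) * sin s = (1 - 5 / 7 * (173 / 1000)) * A 1 * sin θ := by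
  rw [mom_shift θ sin sin_periodic]
  have h1 : ∫ u in (-π)..π, fK u * sin (u + θ) =
      ∫ u in (-π)..π, (cos θ * (fK u * sin u) + sin θ * (fK u * cos u)) := by
    refine intervalIntegral.integral_congr fun u _ => ?_
    simp only [sin_add]
    ring
  rw [h1, intervalIntegral.integral_add, intervalIntegral.integral_const_mul,
    intervalIntegral.integral_const_mul, mom_cos1, mom_sin]
  · ring
  · exact ((fK_continuous.mul continuous_sin).const_mul _).intervalIntegrable _ _
  · exact ((fK_continuous.mul continuous_cos).const_mul _).intervalIntegrable _ _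

end

end Pool.H21.VC
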