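import Pool.Agent.H21.VC.Rec

/-!
MP_6f80dc_co, row Num: numerical lower bounds for `A 0` (= 2.39628…) and `A 1` (= 1.74803…).

PROOF.
* `A 0 = ∏_{k<10} (2k + 5/2)/(2k + 3/2) * A 20` by `A_rec` ten times, and `A_cs 20`:
  `S 21 ^ 3 ≤ S 22 * (A 20)^2` with `S m = ∫_0^π sin^m` known in closed form:
  `integral_sin_pow_odd : ∫ sin^(2n+1) = 2 ∏_{i<n} (2i+2)/(2i+3)`,
  `integral_sin_pow_even : ∫ sin^(2n) = π ∏_{i<n} (2i+1)/(2i+2)` (`n = 10` and `n = 11`;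
  `Finset.prod_range_succ`, `norm_num`).  This gives `(A 0)^2 ≥ (rational)/π`, numerically
  `A 0 ≥ 2.39532`, and `num0` needs `A 0 ≥ 2.395164`; use `π < 3.141593` (`Real.pi_lt_d6`).
* `A 1 = (7/5) (11/9) A 5`, `A_cs 5`: `S 6 ^ 3 ≤ S 7 (A 5)^2`; gives `A 1 ≥ 1.7407`, `num1` needs
  `A 1 ≥ 1.731844`.
-/

set_option autoImplicit false

namespace Pool.H21.VC

noncomputable section

open Real

theorem num0 : π ^ 2 / 2 ≤ 1071 / 1000 * ((1 - 3 / 5 * (173 / 1000)) * A 0) ^ 2 := by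
  have e0 := A_rec 0
  have e2 := A_rec 2
  have e4 := A_rec 4
  have e6 := A_rec 6
  have e8 := A_rec 8
  have e10 := A_rec 10
  have e12 := A_rec 12
  have e14 := A_rec 14
  have e16 := A_rec 16
  have e18 := A_rec 18
  norm_num at e0 e2 e4 e6 e8 e10 e12 e14 e16 e18
  have hcs := A_cs 20
  have s21 : (∫ s in (0 : ℝ)..π, sin s ^ (20 + 1)) =
      2 * ∏ i ∈ Finset.range 10, (2 * (i : ℝ) + 2) / (2 * i + 3) :=
    integral_sin_pow_odd (n := 10)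
  have s22 : (∫ s in (0 : ℝ)..π, sin s ^ (20 + 2)) =
      π * ∏ i ∈ Finset.range 11, (2 * (i : ℝ) + 1) / (2 * i + 2) :=
    integral_sin_pow_even (n := 11)
  rw [s21, s22, e18, e16, e14, e12, e10, e8, e6, e4, e2, e0] at hcs
  norm_num [Finset.prod_range_succ] at hcs
  have hπ := Real.pi_lt_d6
  have hπ0 := Real.pi_pos
  have h3 : π ^ 3 ≤ 3.141593 ^ 3 := pow_le_pow_left₀ hπ0.le hπ.le 3
  norm_num at h3
  by_contra hcon
  push Not at hcon
  have h4 : π * (1071 / 1000 * ((1 - 3 / 5 * (173 / 1000)) * A 0) ^ 2) < π * (π ^ 2 / 2) :=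
    mul_lt_mul_of_pos_left hcon hπ0
  have h5 : π * (π ^ 2 / 2) = π ^ 3 / 2 := by ring
  rw [h5] at h4
  ring_nf at hcs h4
  linarith

theorem num1 : π ^ 2 / 4 ≤ 1071 / 1000 * ((1 - 5 / 7 * (173 / 1000)) * A 1) ^ 2 := by
  have e1 := A_rec 1
  have e3 := A_rec 3
  norm_num at e1 e3
  have hcs := A_cs 5
  have s6 : (∫ s in (0 : ℝ)..π, sin s ^ (5 + 1)) =
      π * ∏ i ∈ Finset.range 3, (2 * (i : ℝ) + 1) / (2 * i + 2) :=
    integral_sin_pow_even (n := 3)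
  have s7 : (∫ s in (0 : ℝ)..π, sin s ^ (5 + 2)) =
      2 * ∏ i ∈ Finset.range 3, (2 * (i : ℝ) + 2) / (2 * i + 3) :=
    integral_sin_pow_odd (n := 3)
  rw [s6, s7, e3, e1] at hcs
  norm_num [Finset.prod_range_succ] at hcs
  have hπ := Real.pi_gt_d2
  have hπ0 := Real.pi_pos
  have h3 : 3.14 * π ^ 2 ≤ π ^ 3 := by
    have h := mul_le_mul_of_nonneg_right hπ.le (sq_nonneg π)
    calc 3.14 * π ^ 2 ≤ π * π ^ 2 := h
      _ = π ^ 3 := by ring
  have h2 : 0 < π ^ 2 := by positivity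
  norm_num at h3
  by_contra hcon
  push Not at hcon
  ring_nf at hcs hcon
  nlinarith

end

end Pool.H21.VC
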