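import Pool.Agent.H21.VC.CPP
import Pool.Agent.H21.VC.Bessel
import Pool.Agent.H21.VC.Num
import Pool.Agent.H21.VC.Mom

/-!
MP_6f80dc_co, row CoreB: the upper bound `C₃' ≤ 1.071` for Gram matrices.

PROOF.
* polar: for `x ∈ ℝ²` let `r = |x|²` and write `x = √r (cos (θ/2), sin (θ/2))` (e.g. `Complex.arg`, or
  `x = 0` separately).  gramsq: for such `x, y`, `(x·y)² = r r' cos²((θ-θ')/2) = r r' (1 + cos (θ-θ'))/2`.
* coreB: choose `r_i, θ_i`; `Z i j := (∑_k x i k x j k)^2 = r_i r_j (1 + cos (θ_i - θ_j))/2`.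
  Apply `cp_int` with `g s i = √(2/π) r_i fK (s - θ_i)`: by `kerA`
  `∫ g_s(i) g_s(j) ds = (2/π) r_i r_j ∫ fK(s-θ_i) fK(s-θ_j) ≤ (2/π) r_i r_j (π/4)(1 + cos) = Z i j`.
  So `(2/π) ∫ S² ≤ r · nSum G Z` with `S(s) = ∑_i r_i fK (s - θ_i)`.
  By `mom0, momc, moms`: `∫ S = F0 R`, `∫ S cos = F1 ∑ r_i cos θ_i`, `∫ S sin = F1 ∑ r_i sin θ_i`, where
  `R = ∑ r_i`, `F0 = (1 - 3/5 P) A 0`, `F1 = (1 - 5/7 P) A 1`.  By `bessel`
  `∫ S² ≥ F0²/(2π) R² + F1²/π (C² + D²)`, `C = ∑ r_i cos θ_i`, `D = ∑ r_i sin θ_i`.  By `num0`, `num1`: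
  `1.071 · F0²/(2π) ≥ π/4` and `1.071 · F1²/π ≥ π/4`.  Hence
  `1.071 · (2/π) ∫ S² ≥ (1/2)(R² + C² + D²) = ∑_i ∑_j Z i j`
  (`cos (θ_i - θ_j) = cos cos + sin sin`).
-/

set_option autoImplicit false

namespace Pool.H21.VC

noncomputable section

open Real

theorem polar (x : Fin 2 → ℝ) : ∃ r θ : ℝ, 0 ≤ r ∧ x 0 = √r * cos (θ / 2) ∧ x 1 = √r * sin (θ / 2) := by
  obtain ⟨z, hz⟩ : ∃ z : ℂ, z = ⟨x 0, x 1⟩ := ⟨_, rfl⟩
  refine ⟨‖z‖ ^ 2, 2 * Complex.arg z, by positivity, ?_, ?_⟩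
  · rw [sqrt_sq (norm_nonneg z), mul_div_cancel_left₀ _ (two_ne_zero), Complex.norm_mul_cos_arg, hz]
  · rw [sqrt_sq (norm_nonneg z), mul_div_cancel_left₀ _ (two_ne_zero), Complex.norm_mul_sin_arg, hz]

theorem gramsq (r r' θ θ' : ℝ) (h : 0 ≤ r) (h' : 0 ≤ r') :
    (√r * cos (θ / 2) * (√r' * cos (θ' / 2)) + √r * sin (θ / 2) * (√r' * sin (θ' / 2))) ^ 2
      = r * r' * (1 + cos (θ - θ')) / 2 := by
  have e : √r * cos (θ / 2) * (√r' * cos (θ' / 2)) + √r * sin (θ / 2) * (√r' * sin (θ' / 2)) =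
      √r * √r' * cos (θ / 2 - θ' / 2) := by
    rw [cos_sub]
    ring
  have e2 : cos (θ - θ') = 2 * cos (θ / 2 - θ' / 2) ^ 2 - 1 := by
    rw [← cos_two_mul]
    congr 1
    ring
  rw [e, e2, mul_pow, mul_pow, sq_sqrt h, sq_sqrt h']
  ring

theorem coreb_cont (θ : ℝ) : Continuous fun s => fK (s - θ) :=
  fK_continuous.comp (continuous_id.sub continuous_const)

theorem coreb_int {n : ℕ} (r θ : Fin n → ℝ) (w : ℝ → ℝ) (hw : Continuous w) :
    (∫ s in (0 : ℝ)..2 * π, (∑ i, r i * fK (s - θ i)) * w s) =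
      ∑ i, r i * ∫ s in (0 : ℝ)..2 * π, fK (s - θ i) * w s := by
  have e : ∀ s, (∑ i, r i * fK (s - θ i)) * w s = ∑ i, r i * (fK (s - θ i) * w s) := by
    intro s
    rw [Finset.sum_mul]
    exact Finset.sum_congr rfl fun i _ => by ring
  simp only [e]
  rw [intervalIntegral.integral_finsetSum]
  · exact Finset.sum_congr rfl fun i _ => intervalIntegral.integral_const_mul _ _
  · intro i _
    exact (continuous_const.mul ((coreb_cont (θ i)).mul hw)).intervalIntegrable _ _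

theorem coreb_low {n : ℕ} (r θ : Fin n → ℝ) :
    (((∑ i, r i) ^ 2 + (∑ i, r i * cos (θ i)) ^ 2 + (∑ i, r i * sin (θ i)) ^ 2) / 2 : ℝ) ≤
      1071 / 1000 * (2 / π * ∫ s in (0 : ℝ)..2 * π, (∑ i, r i * fK (s - θ i)) ^ 2) := by
  have hpi : (0 : ℝ) < π := pi_pos
  have hSc : Continuous fun s => ∑ i, r i * fK (s - θ i) :=
    continuous_finsetSum _ fun i _ => continuous_const.mul (coreb_cont (θ i))
  have hb := bessel (fun s => ∑ i, r i * fK (s - θ i)) hSc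
  have i0 : (∫ s in (0 : ℝ)..2 * π, ∑ i, r i * fK (s - θ i)) =
      ((1 - 3 / 5 * (173 / 1000)) * A 0) * ∑ i, r i := by
    have h := coreb_int r θ (fun _ => 1) continuous_const
    simp only [mul_one] at h
    rw [h, Finset.mul_sum]
    exact Finset.sum_congr rfl fun i _ => by rw [mom0]; ring
  have ic : (∫ s in (0 : ℝ)..2 * π, (∑ i, r i * fK (s - θ i)) * cos s) =
      ((1 - 5 / 7 * (173 / 1000)) * A 1) * ∑ i, r i * cos (θ i) := by
    rw [coreb_int r θ cos continuous_cos, Finset.mul_sum]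
    exact Finset.sum_congr rfl fun i _ => by rw [momc]; ring
  have is : (∫ s in (0 : ℝ)..2 * π, (∑ i, r i * fK (s - θ i)) * sin s) =
      ((1 - 5 / 7 * (173 / 1000)) * A 1) * ∑ i, r i * sin (θ i) := by
    rw [coreb_int r θ sin continuous_sin, Finset.mul_sum]
    exact Finset.sum_congr rfl fun i _ => by rw [moms]; ring
  simp only [i0, ic, is] at hb
  have n0 := num0
  have n1 := num1
  generalize (1 - 3 / 5 * (173 / 1000)) * A 0 = F at *
  generalize (1 - 5 / 7 * (173 / 1000)) * A 1 = K at *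
  generalize (∑ i, r i) = R at *
  generalize (∑ i, r i * cos (θ i)) = C at *
  generalize (∑ i, r i * sin (θ i)) = D at *
  generalize (∫ s in (0 : ℝ)..2 * π, (∑ i, r i * fK (s - θ i)) ^ 2) = I at *
  have h1 : 1 / (2 * π) * (F * R) ^ 2 + 1 / π * ((K * C) ^ 2 + (K * D) ^ 2) =
      (F ^ 2 * R ^ 2 + 2 * K ^ 2 * (C ^ 2 + D ^ 2)) / (2 * π) := by
    field_simp
  rw [h1, div_le_iff₀ (by positivity)] at hb
  have h2 : 1071 / 1000 * (2 / π * I) = 1071 / 1000 * (I * (2 * π)) / π ^ 2 := by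
    field_simp
  rw [h2, div_le_div_iff₀ (by norm_num) (by positivity)]
  have h3 := mul_le_mul_of_nonneg_right n0 (sq_nonneg R)
  have h4 := mul_le_mul_of_nonneg_right n1 (add_nonneg (sq_nonneg C) (sq_nonneg D))
  nlinarith

theorem coreb_sum {n : ℕ} (r θ : Fin n → ℝ) :
    (∑ i, ∑ j, r i * r j * (1 + cos (θ i - θ j)) / 2) =
      ((∑ i, r i) ^ 2 + (∑ i, r i * cos (θ i)) ^ 2 + (∑ i, r i * sin (θ i)) ^ 2) / 2 := by
  rw [sq, sq, sq, Finset.sum_mul_sum, Finset.sum_mul_sum, Finset.sum_mul_sum,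
    ← Finset.sum_add_distrib, ← Finset.sum_add_distrib, Finset.sum_div]
  refine Finset.sum_congr rfl fun i _ => ?_
  rw [← Finset.sum_add_distrib, ← Finset.sum_add_distrib, Finset.sum_div]
  refine Finset.sum_congr rfl fun j _ => ?_
  rw [cos_sub]
  ring

theorem coreB {n r : ℕ} (G : SimpleGraph (Fin n)) (hr : 1 ≤ r) (hG : G.CliqueFree (r + 1))
    (x : Fin n → Fin 2 → ℝ) :
    ∑ i, ∑ j, (∑ k, x i k * x j k) ^ 2
      ≤ 1071 / 1000 * (r * nSum G (fun i j => (∑ k, x i k * x j k) ^ 2)) := by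
  have hpi : (0 : ℝ) < π := pi_pos
  choose ρ θ hρ hx0 hx1 using fun i => polar (x i)
  have hZ : ∀ i j, (∑ k, x i k * x j k) ^ 2 = ρ i * ρ j * (1 + cos (θ i - θ j)) / 2 := by
    intro i j
    rw [Fin.sum_univ_two, hx0 i, hx0 j, hx1 i, hx1 j]
    exact gramsq _ _ _ _ (hρ i) (hρ j)
  simp only [hZ]
  rw [coreb_sum]
  refine (coreb_low ρ θ).trans (mul_le_mul_of_nonneg_left ?_ (by norm_num))
  have hq : √(2 / π) * √(2 / π) = 2 / π := mul_self_sqrt (by positivity)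
  have h := cp_int G hr hG (fun s i => √(2 / π) * (ρ i * fK (s - θ i)))
    (fun i => continuous_const.mul (continuous_const.mul (coreb_cont (θ i))))
    (fun s i => mul_nonneg (sqrt_nonneg _) (mul_nonneg (hρ i) (fK_nonneg _)))
    (fun i j => ρ i * ρ j * (1 + cos (θ i - θ j)) / 2) (by
      intro i j
      have e : ∀ s, √(2 / π) * (ρ i * fK (s - θ i)) * (√(2 / π) * (ρ j * fK (s - θ j))) =
          (2 / π * (ρ i * ρ j)) * (fK (s - θ i) * fK (s - θ j)) := by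
        intro s
        linear_combination (ρ i * ρ j * (fK (s - θ i) * fK (s - θ j))) * hq
      simp only [e]
      rw [intervalIntegral.integral_const_mul]
      refine (mul_le_mul_of_nonneg_left (kerA (θ i) (θ j))
        (mul_nonneg (by positivity) (mul_nonneg (hρ i) (hρ j)))).trans (le_of_eq ?_)
      field_simp
      ring)
  refine le_trans (le_of_eq ?_) h
  rw [← intervalIntegral.integral_const_mul]
  congr 1
  funext s
  rw [← Finset.mul_sum, mul_pow, sq (√(2 / π)), hq]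

end

end Pool.H21.VC
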