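import Mathlib

/-!
Problem MP_6f80dc_co: rank-restricted vector chromatic numbers.  Definitions.
-/

set_option autoImplicit false

namespace Pool.H21.VC

open scoped ENNReal

noncomputable section

/-- The all-ones matrix `J`. -/
def J (n : ℕ) : Matrix (Fin n) (Fin n) ℝ := Matrix.of fun _ _ => 1

open Classical in
/-- The matrix `I + Ā`, where `Ā` is the adjacency matrix of the complement of `G`. -/
def nonAdj {n : ℕ} (G : SimpleGraph (Fin n)) : Matrix (Fin n) (Fin n) ℝ :=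
  1 + Gᶜ.adjMatrix ℝ

/-- `χ_vec,3(G) = sup ⟨J, Z⟩` over positive semidefinite, entrywise nonnegative `Z` of rank at most 3
with `⟨I + Ā, Z⟩ = 1`. -/
def chiVec3 {n : ℕ} (G : SimpleGraph (Fin n)) : ℝ≥0∞ :=
  ⨆ (Z : Matrix (Fin n) (Fin n) ℝ)
    (_ : Z.PosSemidef ∧ (∀ i j, 0 ≤ Z i j) ∧ Z.rank ≤ 3 ∧ (nonAdj G * Z).trace = 1),
    ENNReal.ofReal (J n * Z).trace

/-- `χ'_vec,3(G) = sup ⟨J, X ∘ X⟩` over positive semidefinite `X` of rank at most 2 with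
`⟨I + Ā, X ∘ X⟩ = 1`; here `X ∘ X` is the entrywise square of `X`. -/
def chiVec3' {n : ℕ} (G : SimpleGraph (Fin n)) : ℝ≥0∞ :=
  ⨆ (X : Matrix (Fin n) (Fin n) ℝ)
    (_ : X.PosSemidef ∧ X.rank ≤ 2 ∧ (nonAdj G * (X.hadamard X)).trace = 1),
    ENNReal.ofReal (J n * (X.hadamard X)).trace

/-- `C₃`: the supremum of `χ_vec,3(G) / ω(G)` over all finite nonempty graphs `G`. -/
def C3 : ℝ≥0∞ :=
  ⨆ (n : ℕ) (G : SimpleGraph (Fin (n + 1))), chiVec3 G / (G.cliqueNum : ℝ≥0∞)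

/-- `C₃'`: the supremum of `χ'_vec,3(G) / ω(G)` over all finite nonempty graphs `G`. -/
def C3' : ℝ≥0∞ :=
  ⨆ (n : ℕ) (G : SimpleGraph (Fin (n + 1))), chiVec3' G / (G.cliqueNum : ℝ≥0∞)

/-! Auxiliary functions -/

open Classical in
/-- the sum of a kernel over the ordered pairs `(i, j)` with `i = j` or `i` not adjacent to `j` -/
def nSum {n : ℕ} (G : SimpleGraph (Fin n)) (Z : Fin n → Fin n → ℝ) : ℝ :=
  ∑ i, ∑ j, if G.Adj i j then 0 else Z i j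

/-- the kernel profile `√(max (cos φ) 0) (1 - 173/1000 cos² φ)` -/
def fK (φ : ℝ) : ℝ := Real.sqrt (max (Real.cos φ) 0) * (1 - 173 / 1000 * Real.cos φ ^ 2)

/-- `A n = ∫_0^π √(sin s) sin^n s ds` -/
def A (n : ℕ) : ℝ := ∫ s in (0 : ℝ)..Real.pi, Real.sqrt (Real.sin s) * Real.sin s ^ n

end

end Pool.H21.VC
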