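import Mathlib

/-!
MP_6f80dc_co, row Gram: a real positive semidefinite matrix of rank at most `r` is the Gram matrix of
vectors in `ℝ^r`.

PROOF.  Spectral theorem: for `hZ.1 : Z.IsHermitian` with eigenvalues `λ_a ≥ 0` and the unitary (real
orthogonal) matrix `U`, `Z i j = ∑_a λ_a U i a * U j a` (Matrix.IsHermitian.spectral_theorem, or take
`Z = B^H B` with `B = hZ.sqrt`-like and orthonormal eigenvectors).  By
`Matrix.IsHermitian.rank_eq_card_non_zero_eigs` the set `T` of the indices with `λ_a ≠ 0` has
`card T = rank Z ≤ r`, so there is an embedding `e : T ↪ Fin r`.  Put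
`v i k = √λ_a * U i a` if `k = e a`, and `0` if `k` is not in the range of `e`; then
`∑_k v i k v j k = ∑_{a ∈ T} λ_a U i a U j a = Z i j` (Function.Injective.sum_of_injective or
`Fintype.sum_of_injective`).
-/

set_option autoImplicit false

namespace Pool.H21.VC

noncomputable section

theorem gram_spec {n : ℕ} {Z : Matrix (Fin n) (Fin n) ℝ} (hH : Z.IsHermitian) (i j : Fin n) :
    Z i j = ∑ a, hH.eigenvalues a * ((hH.eigenvectorUnitary : Matrix (Fin n) (Fin n) ℝ) i a
      * (hH.eigenvectorUnitary : Matrix (Fin n) (Fin n) ℝ) j a) := by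
  have h := congrFun (congrFun hH.spectral_theorem i) j
  rw [Unitary.conjStarAlgAut_apply] at h
  rw [Matrix.mul_apply] at h
  rw [h]
  apply Finset.sum_congr rfl
  intro a _
  rw [Matrix.mul_diagonal]
  simp only [Function.comp_apply, RCLike.ofReal_real_eq_id, id_eq, Matrix.star_apply, star_trivial]
  ring

theorem gram {n r : ℕ} {Z : Matrix (Fin n) (Fin n) ℝ} (hZ : Z.PosSemidef) (hr : Z.rank ≤ r) :
    ∃ v : Fin n → Fin r → ℝ, ∀ i j, Z i j = ∑ k, v i k * v j k := by
  classical
  have hH : Z.IsHermitian := hZ.1
  have hlam : ∀ a, 0 ≤ hH.eigenvalues a := hZ.eigenvalues_nonneg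
  have hcard : Fintype.card {a // hH.eigenvalues a ≠ 0} ≤ Fintype.card (Fin r) := by
    rw [← hH.rank_eq_card_non_zero_eigs, Fintype.card_fin]
    exact hr
  obtain ⟨e⟩ : Nonempty ({a // hH.eigenvalues a ≠ 0} ↪ Fin r) :=
    Function.Embedding.nonempty_of_card_le hcard
  set U := (hH.eigenvectorUnitary : Matrix (Fin n) (Fin n) ℝ) with hU
  -- the vectors
  refine ⟨fun i k => ∑ b : {a // hH.eigenvalues a ≠ 0},
    if e b = k then √(hH.eigenvalues b) * U i b else 0, ?_⟩
  intro i j
  have h1 : ∀ k : Fin r, (∑ b : {a // hH.eigenvalues a ≠ 0},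
        if e b = k then √(hH.eigenvalues b) * U i b else 0)
      * (∑ b : {a // hH.eigenvalues a ≠ 0},
        if e b = k then √(hH.eigenvalues b) * U j b else 0)
      = ∑ b : {a // hH.eigenvalues a ≠ 0},
        if e b = k then hH.eigenvalues b * (U i b * U j b) else 0 := by
    intro k
    by_cases hk : ∃ b, e b = k
    · obtain ⟨b, hb⟩ := hk
      have hs : ∀ (F : {a // hH.eigenvalues a ≠ 0} → ℝ),
          (∑ c, if e c = k then F c else 0) = F b := by
        intro F
        rw [Finset.sum_eq_single b]
        · rw [if_pos hb]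
        · intro c _ hc
          rw [if_neg]
          intro h
          exact hc (e.injective (h.trans hb.symm))
        · intro h
          exact absurd (Finset.mem_univ b) h
      rw [hs (fun b => √(hH.eigenvalues b) * U i b), hs (fun b => √(hH.eigenvalues b) * U j b),
        hs (fun b => hH.eigenvalues b * (U i b * U j b))]
      have := Real.mul_self_sqrt (hlam b)
      linear_combination (U i b * U j b) * this
    · have hs : ∀ (F : {a // hH.eigenvalues a ≠ 0} → ℝ),
          (∑ c, if e c = k then F c else 0) = 0 := by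
        intro F
        apply Finset.sum_eq_zero
        intro c _
        rw [if_neg]
        intro h
        exact hk ⟨c, h⟩
      rw [hs (fun b => √(hH.eigenvalues b) * U i b), hs (fun b => √(hH.eigenvalues b) * U j b),
        hs (fun b => hH.eigenvalues b * (U i b * U j b))]
      ring
  rw [Finset.sum_congr rfl fun k _ => h1 k, Finset.sum_comm]
  simp only [Finset.sum_ite_eq, Finset.mem_univ, if_true]
  rw [gram_spec hH i j]
  symm
  refine (Finset.sum_subtype (Finset.univ.filter fun a => hH.eigenvalues a ≠ 0)
    (p := fun a => hH.eigenvalues a ≠ 0) (by simp)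
    (fun a => hH.eigenvalues a * (U i a * U j a))).symm.trans ?_
  rw [Finset.sum_filter]
  apply Finset.sum_congr rfl
  intro a _
  by_cases ha : hH.eigenvalues a = 0
  · simp [ha]
  · simp [ha, hU]

end

end Pool.H21.VC
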