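import Mathlib

/-!
MP_6f80dc_co, row Poly: the algebra behind the kernel inequality (here p = -173/1000).

PROOFS.
* alg1: with `W = √(y² - a)`, `C = √(1-a)`: the claim is `W (1 - a y) ≤ y C³`.  Both sides are `≥ 0`
  (`a y ≤ 1`), so compare squares: `(1-a)³ y² - (y² - a)(1 - a y)² = a (1-y)² (1 + 2(1-a) y - a y²)`
  (identity, `ring`) and the right side is `≥ 0`.
* algQ: with `cos²(ψ-h)`, … : put `x = sin ψ`, `t = cos² h`.  `cos(ψ-h) cos(ψ+h) = cos²ψ - sin² h = t - x²`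
  and `cos²(ψ-h) + cos²(ψ+h) = 4 t (1-t) + 2 (2t-1)(t - x²)` (expand with `cos_sub, cos_add`,
  `sin² = 1 - cos²`).
* algK: for `0 ≤ X ≤ t ≤ 1` the polynomial `Q = 1 - 4P t(1-t) - 2P(2t-1) X + P² X²`, `P = 173/1000`, is at
  most `K` where `K = (1 - P t)²` if `t ≤ 1/2` (`Q` is increasing in `X` there: difference
  `K - Q = (t - X) (2P(1-2t) + P²(t+X))`), and `K = 1 - 4P t(1-t) + P² t²` if `t ≥ 1/2`.
* algFin: the final inequality `a K π/2 · t + t² B(t) ≤ π t / 2`, `a = 1 - t`,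
  `B(t) = 2 - (16/3)P t + (8/3)P t² + (16/15)P² t²`:
  for `t ≤ 1/2`: `1 - (1-t)(1-Pt)² = t (1 + 2P - (2P + P²) t + P² t²)` and
  `B(t) ≤ (π/2)(1 + 2P - (2P+P²) t + P² t²)` (use `π/2 > 1.57`; left side is at most 2, decreasing;
  slack at least 0.1);
  for `t ≥ 1/2`: `1 - (1-t)(1 - 4Pt(1-t) + P²t²) = t (1 + 4P (1-t)² - P² t (1-t))`, and with `ε = 1 - t`
  `1.5707 (1 + 4P ε² - P² (1-ε) ε) - B = 0.0001091 + 0.016839 ε + 0.640676 ε² + (tiny) ≥ 0`,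
  `π/2 > 1.5707` (`Real.pi_gt_d4`).  Both are one-variable polynomial inequalities (nlinarith).
-/

set_option autoImplicit false

namespace Pool.H21.VC

noncomputable section

open Real

theorem alg1 (a y : ℝ) (ha : 0 ≤ a) (ha1 : a ≤ 1) (hy : 0 ≤ y) (hy1 : y ≤ 1) (hay : a ≤ y ^ 2) :
    √(y ^ 2 - a) ≤ y * (a * √(y ^ 2 - a) + √(1 - a) ^ 3) := by
  have hW0 : 0 ≤ √(y ^ 2 - a) := sqrt_nonneg _
  have hC0 : 0 ≤ √(1 - a) := sqrt_nonneg _
  have hW : √(y ^ 2 - a) ^ 2 = y ^ 2 - a := sq_sqrt (by linarith)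
  have hC : √(1 - a) ^ 2 = 1 - a := sq_sqrt (by linarith)
  have h1 : a * y ≤ 1 := by nlinarith
  have key : (√(y ^ 2 - a) * (1 - a * y)) ^ 2 ≤ (y * √(1 - a) ^ 3) ^ 2 := by
    have e1 : (√(y ^ 2 - a) * (1 - a * y)) ^ 2 = (y ^ 2 - a) * (1 - a * y) ^ 2 := by
      rw [mul_pow, hW]
    have e2 : (y * √(1 - a) ^ 3) ^ 2 = y ^ 2 * (1 - a) ^ 3 := by
      have : (√(1 - a) ^ 3) ^ 2 = (√(1 - a) ^ 2) ^ 3 := by ring
      rw [mul_pow, this, hC]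
    rw [e1, e2]
    have e3 : y ^ 2 * (1 - a) ^ 3 - (y ^ 2 - a) * (1 - a * y) ^ 2 =
        a * (1 - y) ^ 2 * (1 + 2 * (1 - a) * y - a * y ^ 2) := by ring
    have h2 : 0 ≤ 1 + 2 * (1 - a) * y - a * y ^ 2 := by
      have h3 : 0 ≤ (1 - a) * y := mul_nonneg (by linarith) hy
      have h4 : a * y ^ 2 ≤ 1 := by nlinarith
      linarith
    have h3 : 0 ≤ a * (1 - y) ^ 2 * (1 + 2 * (1 - a) * y - a * y ^ 2) :=
      mul_nonneg (mul_nonneg ha (sq_nonneg _)) h2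
    linarith
  have h2 : √(y ^ 2 - a) * (1 - a * y) ≤ y * √(1 - a) ^ 3 := by
    refine (pow_le_pow_iff_left₀ ?_ ?_ (by norm_num : (2 : ℕ) ≠ 0)).1 key
    · exact mul_nonneg hW0 (by linarith)
    · positivity
  nlinarith

theorem algQ1 (ψ h : ℝ) : cos (ψ - h) * cos (ψ + h) = cos h ^ 2 - sin ψ ^ 2 := by
  rw [cos_sub, cos_add]
  linear_combination (cos h ^ 2) * (sin_sq_add_cos_sq ψ) - (sin ψ ^ 2) * (sin_sq_add_cos_sq h)

theorem poly_sum (ψ h : ℝ) : cos (ψ - h) ^ 2 + cos (ψ + h) ^ 2 =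
    4 * cos h ^ 2 * (1 - cos h ^ 2) + 2 * (2 * cos h ^ 2 - 1) * (cos h ^ 2 - sin ψ ^ 2) := by
  rw [cos_sub, cos_add]
  linear_combination (2 * cos h ^ 2) * (sin_sq_add_cos_sq ψ) +
    (2 * sin ψ ^ 2) * (sin_sq_add_cos_sq h)

theorem algQ2 (ψ h : ℝ) :
    (1 - 173 / 1000 * cos (ψ - h) ^ 2) * (1 - 173 / 1000 * cos (ψ + h) ^ 2)
      = 1 - 4 * (173 / 1000) * cos h ^ 2 * (1 - cos h ^ 2)
        - 2 * (173 / 1000) * (2 * cos h ^ 2 - 1) * (cos h ^ 2 - sin ψ ^ 2)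
        + (173 / 1000) ^ 2 * (cos h ^ 2 - sin ψ ^ 2) ^ 2 := by
  have h1 := algQ1 ψ h
  have h2 := poly_sum ψ h
  have h3 : (1 - 173 / 1000 * cos (ψ - h) ^ 2) * (1 - 173 / 1000 * cos (ψ + h) ^ 2) =
      1 - 173 / 1000 * (cos (ψ - h) ^ 2 + cos (ψ + h) ^ 2) +
        (173 / 1000) ^ 2 * (cos (ψ - h) * cos (ψ + h)) ^ 2 := by ring
  rw [h3, h1, h2]
  ring

/-- the bound `K(t)` -/
def KK (t : ℝ) : ℝ :=
  if t ≤ 1 / 2 then (1 - 173 / 1000 * t) ^ 2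
  else 1 - 4 * (173 / 1000) * t * (1 - t) + (173 / 1000) ^ 2 * t ^ 2

theorem algK (t X : ℝ) (h0 : 0 ≤ X) (h1 : X ≤ t) (h2 : t ≤ 1) :
    1 - 4 * (173 / 1000) * t * (1 - t) - 2 * (173 / 1000) * (2 * t - 1) * X
        + (173 / 1000) ^ 2 * X ^ 2 ≤ KK t := by
  unfold KK
  split_ifs with h
  · have h3 : 0 ≤ (t - X) * (2 * (173 / 1000) * (1 - 2 * t) + (173 / 1000) ^ 2 * (t + X)) := by
      refine mul_nonneg (by linarith) ?_
      have h5 : 0 ≤ 1 - 2 * t := by linarith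
      have h6 : 0 ≤ t + X := by linarith
      exact add_nonneg (mul_nonneg (by norm_num) h5) (mul_nonneg (by norm_num) h6)
    linarith
  · push Not at h
    have h3 : 0 ≤ (173 / 1000 : ℝ) ^ 2 * ((t - X) * (t + X)) +
        2 * (173 / 1000) * ((2 * t - 1) * X) := by
      have h4 : 0 ≤ (t - X) * (t + X) := mul_nonneg (by linarith) (by linarith)
      have h5 : 0 ≤ (2 * t - 1) * X := mul_nonneg (by linarith) h0
      positivity
    linarith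

theorem algQpos (t X : ℝ) (h0 : 0 ≤ X) (h1 : X ≤ t) (h2 : t ≤ 1) :
    0 ≤ 1 - 4 * (173 / 1000) * t * (1 - t) - 2 * (173 / 1000) * (2 * t - 1) * X
        + (173 / 1000) ^ 2 * X ^ 2 := by
  have h3 : t * (1 - t) ≤ 1 / 4 := by nlinarith [sq_nonneg (t - 1 / 2)]
  have h4 : (2 * t - 1) * X ≤ 1 := by nlinarith
  nlinarith [sq_nonneg X]

theorem algFin (t : ℝ) (h0 : 0 ≤ t) (h2 : t ≤ 1) :
    (1 - t) * KK t * (π * t / 2)
      + t ^ 2 * (2 - 16 / 3 * (173 / 1000) * t + 8 / 3 * (173 / 1000) * t ^ 2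
          + 16 / 15 * (173 / 1000) ^ 2 * t ^ 2) ≤ π * t / 2 := by
  have hpi : (1.5707 : ℝ) < π / 2 := by
    have := pi_gt_d4
    norm_num at this ⊢
    linarith
  unfold KK
  split_ifs with h
  · have hG : 0 ≤ 1 + 2 * (173 / 1000) - (2 * (173 / 1000) + (173 / 1000) ^ 2) * t
        + (173 / 1000) ^ 2 * t ^ 2 := by nlinarith [sq_nonneg t]
    have h3 : 2 - 16 / 3 * (173 / 1000) * t + 8 / 3 * (173 / 1000) * t ^ 2
          + 16 / 15 * (173 / 1000) ^ 2 * t ^ 2 ≤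
        1.5707 * (1 + 2 * (173 / 1000) - (2 * (173 / 1000) + (173 / 1000) ^ 2) * t
        + (173 / 1000) ^ 2 * t ^ 2) := by
      nlinarith [mul_nonneg h0 (by linarith : 0 ≤ 1 / 2 - t)]
    have h4 : 2 - 16 / 3 * (173 / 1000) * t + 8 / 3 * (173 / 1000) * t ^ 2
          + 16 / 15 * (173 / 1000) ^ 2 * t ^ 2 ≤
        π / 2 * (1 + 2 * (173 / 1000) - (2 * (173 / 1000) + (173 / 1000) ^ 2) * t
        + (173 / 1000) ^ 2 * t ^ 2) :=
      h3.trans (mul_le_mul_of_nonneg_right hpi.le hG)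
    have h5 := mul_le_mul_of_nonneg_left h4 (sq_nonneg t)
    have h6 : π * t / 2 - (1 - t) * (1 - 173 / 1000 * t) ^ 2 * (π * t / 2) =
        t ^ 2 * (π / 2 * (1 + 2 * (173 / 1000) - (2 * (173 / 1000) + (173 / 1000) ^ 2) * t
        + (173 / 1000) ^ 2 * t ^ 2)) := by ring
    linarith
  · push Not at h
    have he : 0 ≤ 1 - t := by linarith
    have hG : 0 ≤ 1 + 4 * (173 / 1000) * (1 - t) ^ 2 - (173 / 1000) ^ 2 * t * (1 - t) := by
      nlinarith [sq_nonneg (1 - t), mul_nonneg h0 he, sq_nonneg (t - 1 / 2)]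
    have h3 : 2 - 16 / 3 * (173 / 1000) * t + 8 / 3 * (173 / 1000) * t ^ 2
          + 16 / 15 * (173 / 1000) ^ 2 * t ^ 2 ≤
        1.5707 * (1 + 4 * (173 / 1000) * (1 - t) ^ 2 - (173 / 1000) ^ 2 * t * (1 - t)) := by
      nlinarith [sq_nonneg (1 - t)]
    have h4 : 2 - 16 / 3 * (173 / 1000) * t + 8 / 3 * (173 / 1000) * t ^ 2
          + 16 / 15 * (173 / 1000) ^ 2 * t ^ 2 ≤
        π / 2 * (1 + 4 * (173 / 1000) * (1 - t) ^ 2 - (173 / 1000) ^ 2 * t * (1 - t)) :=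
      h3.trans (mul_le_mul_of_nonneg_right hpi.le hG)
    have h5 := mul_le_mul_of_nonneg_left h4 (sq_nonneg t)
    have h6 : π * t / 2 - (1 - t) * (1 - 4 * (173 / 1000) * t * (1 - t)
          + (173 / 1000) ^ 2 * t ^ 2) * (π * t / 2) =
        t ^ 2 * (π / 2 * (1 + 4 * (173 / 1000) * (1 - t) ^ 2
          - (173 / 1000) ^ 2 * t * (1 - t))) := by ring
    linarith

end

end Pool.H21.VC
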