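import Pool.Agent.H21.VC.Defs
import Pool.Agent.H21.VC.Poly

/-!
MP_6f80dc_co, row KerB: the kernel inequality on the overlap interval.

PROOF.  Put `h = D/2 ∈ [0, π/2]`, `c = cos h ≥ 0`, `t = c²`, `a = sin² h = 1 - t`, and `m = π/2 - h ≥ 0`,
so `sin m = c`.  For `ψ ∈ [-m, m]` both `ψ - h` and `ψ + h` lie in `[-π/2, π/2]`, so both cosines are
`≥ 0` and `fK (ψ-h) * fK (ψ+h) = √(cos(ψ-h) cos(ψ+h)) * Q(ψ)`, where by `algQ1`
`cos(ψ-h) cos(ψ+h) = c² - sin²ψ = cos²ψ - a ≥ 0`, and `Q(ψ)` is the polynomial of `algQ2` in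
`X = c² - sin²ψ ∈ [0, t]`; `Q ≥ 0` by `algQpos`.  By `alg1` (`y = cos ψ ∈ [0,1]`)
`√(cos²ψ - a) ≤ cos ψ (a √(c² - sin²ψ) + c³)` (note `√(1-a) = c`).  So the integrand is at most
`H(sin ψ) cos ψ` with `H(x) = (a √(c² - x²) + c³) Qx(x)`,
`Qx(x) = 1 - 4P t(1-t) - 2P(2t-1)(t - x²) + P²(t - x²)²`, `P = 173/1000`; and
`∫_{-m}^{m} H(sin ψ) cos ψ dψ = ∫_{-c}^{c} H(x) dx` (`intervalIntegral.integral_comp_mul_deriv`,
`sin (-m) = -c`).  On `[-c, c]`: `a √(c² - x²) Qx ≤ a √(c² - x²) KK t` by `algK`, and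
`∫_{-c}^{c} √(c² - x²) dx = π c²/2` (scale `integral_sqrt_one_sub_sq`; the case `c = 0` is trivial);
`∫_{-c}^{c} c³ Qx = t² (2 - (16/3)P t + (8/3)P t² + (16/15)P² t²)` (polynomial, `integral_pow` / simp,
then `ring`; `c⁴ = t²`).  With `algFin` the total is `≤ π t/2 = (π/4)(1 + cos D)`, because
`1 + cos D = 2 cos²(D/2) = 2t`.
-/

set_option autoImplicit false

namespace Pool.H21.VC

noncomputable section

open Real

theorem int_semicircle (c : ℝ) (hc : 0 ≤ c) :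
    ∫ x in (-c)..c, √(c ^ 2 - x ^ 2) = π * c ^ 2 / 2 := by
  rcases hc.eq_or_lt with rfl | hc
  · simp
  have h := intervalIntegral.mul_integral_comp_mul_left
    (f := fun x : ℝ => √(c ^ 2 - x ^ 2)) (a := -1) (b := 1) c
  have h2 : ∀ x : ℝ, √(c ^ 2 - (c * x) ^ 2) = c * √(1 - x ^ 2) := by
    intro x
    rw [show c ^ 2 - (c * x) ^ 2 = c ^ 2 * (1 - x ^ 2) by ring, Real.sqrt_mul (sq_nonneg c),
      Real.sqrt_sq hc.le]
  simp only [h2, intervalIntegral.integral_const_mul, integral_sqrt_one_sub_sq] at h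
  rw [mul_neg_one, mul_one] at h
  rw [← h]; ring

/-- the polynomial factor -/
def kerb_Q (t x : ℝ) : ℝ :=
  1 - 4 * (173 / 1000) * t * (1 - t) - 2 * (173 / 1000) * (2 * t - 1) * (t - x ^ 2)
        + (173 / 1000) ^ 2 * (t - x ^ 2) ^ 2

theorem kerb_Q_cont (t : ℝ) : Continuous (kerb_Q t) := by
  unfold kerb_Q; fun_prop

theorem kerb_fK_cont : Continuous fK := by
  unfold fK; fun_prop

theorem kerb_pt (h ψ : ℝ) (h0 : 0 ≤ h) (h1 : h ≤ π / 2) (hψ : |ψ| ≤ π / 2 - h) :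
    fK (ψ - h) * fK (ψ + h)
      ≤ (((1 - cos h ^ 2) * √(cos h ^ 2 - sin ψ ^ 2) + cos h ^ 3) * kerb_Q (cos h ^ 2) (sin ψ))
        * cos ψ := by
  obtain ⟨hψ1, hψ2⟩ := abs_le.mp hψ
  have c1 : 0 ≤ cos (ψ - h) := Real.cos_nonneg_of_neg_pi_div_two_le_of_le (by linarith) (by linarith)
  have c2 : 0 ≤ cos (ψ + h) := Real.cos_nonneg_of_neg_pi_div_two_le_of_le (by linarith) (by linarith)
  have c3 : 0 ≤ cos ψ := Real.cos_nonneg_of_neg_pi_div_two_le_of_le (by linarith) (by linarith)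
  have c4 : 0 ≤ cos h := Real.cos_nonneg_of_neg_pi_div_two_le_of_le (by linarith) (by linarith)
  have e1 := algQ1 ψ h
  have hX0 : 0 ≤ cos h ^ 2 - sin ψ ^ 2 := by rw [← e1]; exact mul_nonneg c1 c2
  have hX1 : cos h ^ 2 - sin ψ ^ 2 ≤ cos h ^ 2 := by nlinarith [sq_nonneg (sin ψ)]
  have ht1 : cos h ^ 2 ≤ 1 := Real.cos_sq_le_one h
  have e2 : fK (ψ - h) * fK (ψ + h)
      = √(cos h ^ 2 - sin ψ ^ 2) * kerb_Q (cos h ^ 2) (sin ψ) := by
    unfold fK
    rw [max_eq_left c1, max_eq_left c2, ← e1, Real.sqrt_mul c1]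
    unfold kerb_Q
    rw [← algQ2 ψ h]
    ring
  have e3 : 0 ≤ kerb_Q (cos h ^ 2) (sin ψ) := algQpos _ _ hX0 hX1 ht1
  have hs := Real.sin_sq_add_cos_sq ψ
  have e4 := alg1 (1 - cos h ^ 2) (cos ψ) (by linarith) (by nlinarith [sq_nonneg (cos h)]) c3
    (Real.cos_le_one ψ) (by nlinarith)
  have e5 : cos ψ ^ 2 - (1 - cos h ^ 2) = cos h ^ 2 - sin ψ ^ 2 := by linarith
  have e6 : √(1 - (1 - cos h ^ 2)) = cos h := by
    rw [sub_sub_cancel, Real.sqrt_sq c4]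
  rw [e5, e6] at e4
  rw [e2]
  calc √(cos h ^ 2 - sin ψ ^ 2) * kerb_Q (cos h ^ 2) (sin ψ)
      ≤ (cos ψ * ((1 - cos h ^ 2) * √(cos h ^ 2 - sin ψ ^ 2) + cos h ^ 3))
          * kerb_Q (cos h ^ 2) (sin ψ) := mul_le_mul_of_nonneg_right e4 e3
    _ = _ := by ring

theorem kerb_poly0 (c α β γ : ℝ) :
    ∫ x in (-c)..c, (α + β * x ^ 2 + γ * x ^ 4)
      = 2 * c * α + 2 * c ^ 3 * β / 3 + 2 * c ^ 5 * γ / 5 := by
  rw [intervalIntegral.integral_add, intervalIntegral.integral_add,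
    intervalIntegral.integral_const_mul, intervalIntegral.integral_const_mul,
    intervalIntegral.integral_const, integral_pow, integral_pow]
  · simp only [smul_eq_mul]
    push_cast
    ring
  · exact Continuous.intervalIntegrable (by fun_prop) _ _
  · exact Continuous.intervalIntegrable (by fun_prop) _ _
  · exact Continuous.intervalIntegrable (by fun_prop) _ _
  · exact Continuous.intervalIntegrable (by fun_prop) _ _

theorem kerb_poly (c : ℝ) :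
    ∫ x in (-c)..c, c ^ 3 * kerb_Q (c ^ 2) x
      = (c ^ 2) ^ 2 * (2 - 16 / 3 * (173 / 1000) * c ^ 2 + 8 / 3 * (173 / 1000) * (c ^ 2) ^ 2
          + 16 / 15 * (173 / 1000) ^ 2 * (c ^ 2) ^ 2) := by
  have e : ∀ x : ℝ, c ^ 3 * kerb_Q (c ^ 2) x
      = (c ^ 3 * (1 - 4 * (173 / 1000) * c ^ 2 * (1 - c ^ 2)
          - 2 * (173 / 1000) * (2 * c ^ 2 - 1) * c ^ 2 + (173 / 1000) ^ 2 * (c ^ 2) ^ 2))
        + (c ^ 3 * (2 * (173 / 1000) * (2 * c ^ 2 - 1) - 2 * (173 / 1000) ^ 2 * c ^ 2)) * x ^ 2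
        + (c ^ 3 * (173 / 1000) ^ 2) * x ^ 4 := by
    intro x; unfold kerb_Q; ring
  simp only [e]
  rw [kerb_poly0]
  ring

theorem kerB (D : ℝ) (h0 : 0 ≤ D) (h1 : D ≤ π) :
    (∫ s in (-(π / 2 - D / 2))..(π / 2 - D / 2), fK (s - D / 2) * fK (s + D / 2))
      ≤ π / 4 * (1 + cos D) := by
  have hc4 : 0 ≤ cos (D / 2) :=
    Real.cos_nonneg_of_neg_pi_div_two_le_of_le (by linarith [Real.pi_pos]) (by linarith)
  have hD : cos D = 2 * cos (D / 2) ^ 2 - 1 := by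
    rw [← Real.cos_two_mul]; congr 1; ring
  have hsin : sin (π / 2 - D / 2) = cos (D / 2) := Real.sin_pi_div_two_sub _
  have hsin' : sin (-(π / 2 - D / 2)) = -cos (D / 2) := by rw [Real.sin_neg, hsin]
  have hm : -(π / 2 - D / 2) ≤ π / 2 - D / 2 := by linarith
  have key : ∀ c : ℝ, c = cos (D / 2) →
      (∫ s in (-(π / 2 - D / 2))..(π / 2 - D / 2), fK (s - D / 2) * fK (s + D / 2))
        ≤ ∫ x in (-c)..c, ((1 - c ^ 2) * √(c ^ 2 - x ^ 2) + c ^ 3) * kerb_Q (c ^ 2) x := by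
    intro c hc
    have hH : Continuous fun x : ℝ =>
        ((1 - c ^ 2) * √(c ^ 2 - x ^ 2) + c ^ 3) * kerb_Q (c ^ 2) x := by
      have := kerb_Q_cont (c ^ 2)
      fun_prop
    have hsub := intervalIntegral.integral_comp_mul_deriv (a := -(π / 2 - D / 2))
      (b := π / 2 - D / 2) (f := sin) (f' := cos)
      (g := fun x : ℝ => ((1 - c ^ 2) * √(c ^ 2 - x ^ 2) + c ^ 3) * kerb_Q (c ^ 2) x)
      (fun x _ => Real.hasDerivAt_sin x) Real.continuous_cos.continuousOn hH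
    rw [hsin, hsin', ← hc] at hsub
    rw [← hsub]
    apply intervalIntegral.integral_mono_on hm
    · apply Continuous.intervalIntegrable
      have := kerb_fK_cont
      fun_prop
    · apply Continuous.intervalIntegrable
      exact (hH.comp Real.continuous_sin).mul Real.continuous_cos
    · intro ψ hψ
      have := kerb_pt (D / 2) ψ (by linarith) (by linarith) (abs_le.mpr ⟨hψ.1, hψ.2⟩)
      rw [← hc] at this
      exact this
  refine (key _ rfl).trans ?_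
  rw [hD]
  have hcle : cos (D / 2) ≤ 1 := Real.cos_le_one _
  generalize cos (D / 2) = c at hc4 hcle
  have hc1 : c ≤ 1 := hcle
  have ht1 : c ^ 2 ≤ 1 := by nlinarith
  have ht0 : 0 ≤ c ^ 2 := sq_nonneg c
  have hQ := kerb_Q_cont (c ^ 2)
  have i1 : IntervalIntegrable (fun x : ℝ => (1 - c ^ 2) * KK (c ^ 2) * √(c ^ 2 - x ^ 2))
      MeasureTheory.volume (-c) c := Continuous.intervalIntegrable (by fun_prop) _ _
  have i2 : IntervalIntegrable (fun x : ℝ => c ^ 3 * kerb_Q (c ^ 2) x)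
      MeasureTheory.volume (-c) c := Continuous.intervalIntegrable (by fun_prop) _ _
  have step : (∫ x in (-c)..c, ((1 - c ^ 2) * √(c ^ 2 - x ^ 2) + c ^ 3) * kerb_Q (c ^ 2) x)
      ≤ ∫ x in (-c)..c, ((1 - c ^ 2) * KK (c ^ 2) * √(c ^ 2 - x ^ 2)
          + c ^ 3 * kerb_Q (c ^ 2) x) := by
    apply intervalIntegral.integral_mono_on (by linarith)
    · exact Continuous.intervalIntegrable (by fun_prop) _ _
    · exact i1.add i2
    · intro x hx
      have hx2 : x ^ 2 ≤ c ^ 2 := by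
        rw [sq_le_sq, abs_of_nonneg hc4]
        exact abs_le.mpr ⟨hx.1, hx.2⟩
      have hk : kerb_Q (c ^ 2) x ≤ KK (c ^ 2) :=
        algK (c ^ 2) (c ^ 2 - x ^ 2) (by linarith) (by nlinarith [sq_nonneg x]) ht1
      have hs : 0 ≤ (1 - c ^ 2) * √(c ^ 2 - x ^ 2) :=
        mul_nonneg (by linarith) (Real.sqrt_nonneg _)
      nlinarith [mul_le_mul_of_nonneg_left hk hs]
  refine step.trans ?_
  rw [intervalIntegral.integral_add i1 i2, intervalIntegral.integral_const_mul,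
    int_semicircle c hc4, kerb_poly]
  have hfin := algFin (c ^ 2) ht0 ht1
  linarith

end

end Pool.H21.VC
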