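import Pool.Agent.H21.VC.Defs
import Pool.Agent.H21.VC.KerB

/-!
MP_6f80dc_co, row KerA: the kernel inequality for arbitrary angles, from `kerB`.

PROOF.  `fK` is continuous, even, `≥ 0`, and `2π`-periodic; `fK φ = 0` when `cos φ ≤ 0`.
* kerC (centred form, `0 ≤ D ≤ π`): split `∫_{-π}^{π}` at `∓(π/2 - D/2)`.  For
  `s ∈ [π/2 - D/2, π]`, `s + D/2 ∈ [π/2, 3π/2]`, so `cos (s + D/2) ≤ 0` and the integrand is `0`;
  for `s ∈ [-π, -(π/2 - D/2)]`, `s - D/2 ∈ [-3π/2, -π/2]` and the integrand is `0` too.  The middle part is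
  `kerB`.
* kerA: choose an integer `k` with `D = θ - θ' - 2πk ∈ [-π, π]` (e.g. `toIocMod`, or `round`); replacing
  `θ'` by `θ' + 2πk` changes nothing (periodicity of `fK` and `cos`).  By symmetry (exchange `θ, θ'`) we may
  assume `D ≥ 0`.  With `m = (θ + θ')/2` the integrand is `2π`-periodic in `s`, so
  `∫_0^{2π} = ∫_{m-π}^{m+π}` (`Function.Periodic.intervalIntegral_add_eq`), and `s = m + u` gives
  `∫_{-π}^{π} fK (u - D/2) fK (u + D/2) du` (`intervalIntegral.integral_comp_add_left` etc.).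
-/

set_option autoImplicit false

namespace Pool.H21.VC

noncomputable section

open Real

theorem fK_continuous : Continuous fK := by
  unfold fK
  fun_prop

theorem fK_nonneg (φ : ℝ) : 0 ≤ fK φ := by
  unfold fK
  refine mul_nonneg (Real.sqrt_nonneg _) ?_
  have h1 : Real.cos φ ^ 2 ≤ 1 := Real.cos_sq_le_one φ
  linarith

theorem fK_even (φ : ℝ) : fK (-φ) = fK φ := by
  unfold fK
  rw [Real.cos_neg]

theorem fK_periodic : Function.Periodic fK (2 * π) := by
  intro x
  unfold fK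
  rw [Real.cos_add_two_pi]

private lemma kera_zero {φ : ℝ} (h : Real.cos φ ≤ 0) : fK φ = 0 := by
  unfold fK
  rw [max_eq_right h, Real.sqrt_zero, zero_mul]

private lemma kera_cont (a b : ℝ) : Continuous fun s => fK (s + a) * fK (s + b) :=
  (fK_continuous.comp (continuous_id.add continuous_const)).mul
    (fK_continuous.comp (continuous_id.add continuous_const))

theorem kerC (D : ℝ) (h0 : 0 ≤ D) (h1 : D ≤ π) :
    (∫ s in (-π)..π, fK (s - D / 2) * fK (s + D / 2)) ≤ π / 4 * (1 + cos D) := by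
  have hc : Continuous fun s => fK (s - D / 2) * fK (s + D / 2) := by
    have h := kera_cont (-(D / 2)) (D / 2)
    simpa only [← sub_eq_add_neg] using h
  have hi : ∀ a b : ℝ, IntervalIntegrable (fun s => fK (s - D / 2) * fK (s + D / 2))
      MeasureTheory.volume a b := fun a b => hc.intervalIntegrable a b
  have hpi := Real.pi_pos
  have e1 : (∫ s in (-π)..(-(π / 2 - D / 2)), fK (s - D / 2) * fK (s + D / 2)) = 0 := by
    refine Eq.trans (intervalIntegral.integral_congr (g := fun _ => (0 : ℝ)) ?_) (by simp)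
    intro s hs
    rw [Set.uIcc_of_le (by linarith)] at hs
    have h2 : Real.cos (s - D / 2) ≤ 0 := by
      rw [← Real.cos_neg]
      exact Real.cos_nonpos_of_pi_div_two_le_of_le (by linarith [hs.2]) (by linarith [hs.1])
    show fK (s - D / 2) * fK (s + D / 2) = 0
    rw [kera_zero h2, zero_mul]
  have e2 : (∫ s in (π / 2 - D / 2)..π, fK (s - D / 2) * fK (s + D / 2)) = 0 := by
    refine Eq.trans (intervalIntegral.integral_congr (g := fun _ => (0 : ℝ)) ?_) (by simp)
    intro s hs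
    rw [Set.uIcc_of_le (by linarith)] at hs
    have h2 : Real.cos (s + D / 2) ≤ 0 :=
      Real.cos_nonpos_of_pi_div_two_le_of_le (by linarith [hs.1]) (by linarith [hs.2])
    show fK (s - D / 2) * fK (s + D / 2) = 0
    rw [kera_zero h2, mul_zero]
  have e3 := intervalIntegral.integral_add_adjacent_intervals (hi (-π) (-(π / 2 - D / 2)))
    (hi (-(π / 2 - D / 2)) (π / 2 - D / 2))
  have e4 := intervalIntegral.integral_add_adjacent_intervals (hi (-π) (π / 2 - D / 2))
    (hi (π / 2 - D / 2) π)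
  have e5 := kerB D h0 h1
  rw [← e4, ← e3, e1, e2, zero_add, add_zero]
  exact e5

private lemma kera_main (θ θ' : ℝ) (h0 : 0 ≤ θ - θ') (h1 : θ - θ' ≤ π) :
    (∫ s in (0 : ℝ)..2 * π, fK (s - θ) * fK (s - θ')) ≤ π / 4 * (1 + cos (θ - θ')) := by
  have hp : Function.Periodic (fun s => fK (s - θ) * fK (s - θ')) (2 * π) := by
    intro s
    show fK (s + 2 * π - θ) * fK (s + 2 * π - θ') = fK (s - θ) * fK (s - θ')
    rw [show s + 2 * π - θ = (s - θ) + 2 * π by ring,
      show s + 2 * π - θ' = (s - θ') + 2 * π by ring, fK_periodic, fK_periodic]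
  have e1 := hp.intervalIntegral_add_eq 0 ((θ + θ') / 2 - π)
  rw [zero_add] at e1
  have e2 := intervalIntegral.integral_comp_add_left (a := -π) (b := π)
    (fun s => fK (s - θ) * fK (s - θ')) ((θ + θ') / 2)
  rw [show (θ + θ') / 2 + -π = (θ + θ') / 2 - π by ring,
    show (θ + θ') / 2 + π = (θ + θ') / 2 - π + 2 * π by ring] at e2
  rw [e1, ← e2]
  have e3 := kerC (θ - θ') h0 h1
  refine le_trans (le_of_eq ?_) e3
  refine intervalIntegral.integral_congr fun s _ => ?_
  show fK ((θ + θ') / 2 + s - θ) * fK ((θ + θ') / 2 + s - θ') =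
    fK (s - (θ - θ') / 2) * fK (s + (θ - θ') / 2)
  rw [show (θ + θ') / 2 + s - θ = s - (θ - θ') / 2 by ring,
    show (θ + θ') / 2 + s - θ' = s + (θ - θ') / 2 by ring]

theorem kerA (θ θ' : ℝ) :
    (∫ s in (0 : ℝ)..2 * π, fK (s - θ) * fK (s - θ')) ≤ π / 4 * (1 + cos (θ - θ')) := by
  have h2pi : (0 : ℝ) < 2 * π := Real.two_pi_pos
  obtain ⟨k, hk⟩ : ∃ k : ℤ, θ - θ' - k • (2 * π) ∈ Set.Ioc (-π) (-π + 2 * π) :=
    ⟨toIocDiv h2pi (-π) (θ - θ'), by
      rw [self_sub_toIocDiv_zsmul]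
      exact toIocMod_mem_Ioc h2pi (-π) (θ - θ')⟩
  have hk1 := hk.1
  have hk2 := hk.2
  have hsm : k • (2 * π) = (k : ℝ) * (2 * π) := by rw [zsmul_eq_mul]
  rw [hsm] at hk1 hk2
  have hper : ∀ s : ℝ, fK (s - θ') = fK (s - (θ' + (k : ℝ) * (2 * π))) := by
    intro s
    have h := fK_periodic.sub_zsmul_eq (x := s - θ') k
    rw [hsm] at h
    rw [← h]
    congr 1
    ring
  have hcos : cos (θ - (θ' + (k : ℝ) * (2 * π))) = cos (θ - θ') := by
    rw [show θ - (θ' + (k : ℝ) * (2 * π)) = (θ - θ') - (k : ℝ) * (2 * π) by ring]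
    exact Real.cos_sub_int_mul_two_pi _ _
  have hint : (∫ s in (0 : ℝ)..2 * π, fK (s - θ) * fK (s - θ')) =
      ∫ s in (0 : ℝ)..2 * π, fK (s - θ) * fK (s - (θ' + (k : ℝ) * (2 * π))) := by
    refine intervalIntegral.integral_congr fun s _ => ?_
    show fK (s - θ) * fK (s - θ') = _
    rw [hper s]
  rw [hint, ← hcos]
  rcases le_total 0 (θ - (θ' + (k : ℝ) * (2 * π))) with h | h
  · exact kera_main θ _ h (by linarith)
  · have h3 := kera_main (θ' + (k : ℝ) * (2 * π)) θ (by linarith) (by linarith)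
    rw [show θ - (θ' + (k : ℝ) * (2 * π)) = -((θ' + (k : ℝ) * (2 * π)) - θ) by ring, Real.cos_neg]
    refine le_trans (le_of_eq ?_) h3
    refine intervalIntegral.integral_congr fun s _ => ?_
    exact mul_comm _ _

end

end Pool.H21.VC
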