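import Pool.Agent.H21.VC.Tr

/-!
MP_6f80dc_co, row LowA: `C₃ ≥ √5/2`, from the 5-cycle.

PROOF.  Let `z = (√5 - 1)/2` and `G` the graph on `Fin 5` with `i ~ j` iff `j - i = ±2` (a 5-cycle:
triangle-free, so `cliqueNum ≤ 2` by `clique_le`).  Let `Z i j = 1/5` if `i = j`, `z/5` if `i ~ j`, `0`
otherwise (`j - i = ±1`).
* `Z ≥ 0` entrywise; the sum of all the entries is `5·(1/5) + 10·z/5 = 1 + 2z = √5`; the sum over the
  nonadjacent (or equal) pairs is `1`.
* `Z` is positive semidefinite of rank `≤ 3`: `Z = Bᵀ B` for the `3 × 5` matrix `B` with rows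
  `B 0 i = α`, `B 1 i = β cos (4π i/5)`, `B 2 i = β sin (4π i/5)`, where `β² = 2/(5 (1 + C))·…`: precisely
  `α² = C β²`, `C = cos (π/5) = (1 + √5)/4` (`Real.cos_pi_div_five`), `5 (α² + β²) = 1`.  Then
  `(BᵀB) i j = α² + β² cos (4π (i-j)/5)`; `cos (4π/5) = -C`, `cos (8π/5) = cos (2π/5) = 2C² - 1 = (√5-1)/4`,
  `cos (12π/5) = cos (2π/5)`, `cos (16π/5) = cos (4π/5)`.  Alternatively give any other proof of
  positive semidefiniteness and of rank `≤ 3` (e.g. two independent kernel vectors, or explicit `B`).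
  `Matrix.rank_mul_le_right`/`Matrix.rank_le_card_height` give the rank.
* So `chiVec3 G ≥ ofReal √5` (`le_iSup₂_of_le`), and `C3 ≥ chiVec3 G / cliqueNum ≥ ofReal √5 / 2`
  `= ofReal (√5/2)`; use `ENNReal.div_le_div_left`-type monotonicity in the denominator
  (`cliqueNum ≤ 2`) and `trace_J`, `trace_nonAdj`.
-/

set_option autoImplicit false

namespace Pool.H21.VC

noncomputable section

open scoped ENNReal

/-- the 5-cycle `i ~ i + 2` -/
def lowa_G : SimpleGraph (Fin 5) where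
  Adj i j := j = i + 2 ∨ j = i + 3
  symm := ⟨by decide⟩
  loopless := ⟨by decide⟩

theorem lowa_free : lowa_G.CliqueFree 3 := by
  intro s hs
  rw [SimpleGraph.is3Clique_iff] at hs
  obtain ⟨a, b, c, h1, h2, h3, -⟩ := hs
  have h : ∀ a b c : Fin 5, (b = a + 2 ∨ b = a + 3) → (c = a + 2 ∨ c = a + 3) →
      ¬ (c = b + 2 ∨ c = b + 3) := by decide
  exact h a b c h1 h2 h3

/-- the factor -/
def lowa_B (s r z : ℝ) : Matrix (Fin 3) (Fin 5) ℝ :=
  !![s, 0, s * z, s * z, 0; 0, s, 0, s * z, s * z; 0, 0, r * z, r * (z - 1), r * z]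

/-- the matrix -/
def lowa_W (z : ℝ) : Matrix (Fin 5) (Fin 5) ℝ :=
  !![1 / 5, 0, z / 5, z / 5, 0; 0, 1 / 5, 0, z / 5, z / 5; z / 5, 0, 1 / 5, 0, z / 5;
    z / 5, z / 5, 0, 1 / 5, 0; 0, z / 5, z / 5, 0, 1 / 5]

theorem lowa_fac {s r z : ℝ} (hs : s * s = 1 / 5) (hr : r * r = (z + 1) / 5)
    (hz : z * z = 1 - z) : (lowa_B s r z).transpose * lowa_B s r z = lowa_W z := by
  ext i j
  rw [Matrix.mul_apply, Fin.sum_univ_three]
  fin_cases i <;> fin_cases j <;>
    simp only [lowa_B, lowa_W, Matrix.transpose_apply, Matrix.of_apply, Matrix.cons_val', Matrix.cons_val_zero,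
      Matrix.cons_val_one, Matrix.cons_val, Fin.zero_eta, Fin.mk_one, Fin.reduceFinMk] <;>
    grind

theorem lowa_nadj (z : ℝ) (i j : Fin 5) (h : ¬ lowa_G.Adj i j) :
    lowa_W z i j = if i = j then 1 / 5 else 0 := by
  fin_cases i <;> fin_cases j <;>
    first
    | exact absurd (Or.inl rfl) h
    | exact absurd (Or.inr rfl) h
    | simp [lowa_W]

theorem lowa_nonneg {z : ℝ} (hz : 0 ≤ z) (i j : Fin 5) : 0 ≤ lowa_W z i j := by
  have h1 : 0 ≤ z / 5 := by positivity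
  fin_cases i <;> fin_cases j <;> simp [lowa_W, h1]

theorem lowa_symm (z : ℝ) (i j : Fin 5) : lowa_W z i j = lowa_W z j i := by
  fin_cases i <;> fin_cases j <;> simp [lowa_W]

theorem lowa_sum (z : ℝ) : ∑ i, ∑ j, lowa_W z i j = 1 + 2 * z := by
  simp only [Fin.sum_univ_five, lowa_W, Matrix.of_apply, Matrix.cons_val', Matrix.cons_val_zero,
    Matrix.cons_val_one, Matrix.cons_val]
  ring

theorem lowa_nsum (z : ℝ) : nSum lowa_G (fun i j => lowa_W z i j) = 1 := by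
  classical
  unfold nSum
  have h1 : ∀ i j : Fin 5, (if lowa_G.Adj i j then (0 : ℝ) else lowa_W z i j) =
      if i = j then 1 / 5 else 0 := by
    intro i j
    by_cases h : lowa_G.Adj i j
    · rw [if_pos h, if_neg h.ne]
    · rw [if_neg h, lowa_nadj z i j h]
  have h2 : ∑ i : Fin 5, ∑ j : Fin 5, (if i = j then (1 : ℝ) / 5 else 0) = 1 := by
    simp
  rw [← h2]
  refine Finset.sum_congr rfl fun i _ => Finset.sum_congr rfl fun j _ => ?_
  rw [← h1 i j]

theorem lowA : ENNReal.ofReal (Real.sqrt 5 / 2) ≤ C3 := by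
  classical
  have h5 : Real.sqrt 5 * Real.sqrt 5 = 5 := Real.mul_self_sqrt (by norm_num)
  have h50 : 0 ≤ Real.sqrt 5 := Real.sqrt_nonneg 5
  obtain ⟨z, hz⟩ : ∃ z, z = (Real.sqrt 5 - 1) / 2 := ⟨_, rfl⟩
  have hz0 : 0 ≤ z := by
    rw [hz]
    nlinarith
  have hzz : z * z = 1 - z := by
    rw [hz]
    nlinarith
  obtain ⟨s, hs⟩ : ∃ s : ℝ, s * s = 1 / 5 := ⟨Real.sqrt (1 / 5), Real.mul_self_sqrt (by norm_num)⟩
  obtain ⟨r, hr⟩ : ∃ r : ℝ, r * r = (z + 1) / 5 :=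
    ⟨Real.sqrt ((z + 1) / 5), Real.mul_self_sqrt (by positivity)⟩
  have hfac := lowa_fac hs hr hzz
  have hpsd : (lowa_W z).PosSemidef := by
    rw [← hfac, ← Matrix.conjTranspose_eq_transpose_of_trivial]
    exact Matrix.posSemidef_conjTranspose_mul_self _
  have hrank : (lowa_W z).rank ≤ 3 := by
    rw [← hfac]
    refine (Matrix.rank_mul_le_right _ _).trans ?_
    have h := Matrix.rank_le_card_height (lowa_B s r z)
    simpa using h
  have htr : (nonAdj lowa_G * lowa_W z).trace = 1 := by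
    rw [trace_nonAdj lowa_G (lowa_W z) (lowa_symm z)]
    exact lowa_nsum z
  have hJ : (J 5 * lowa_W z).trace = Real.sqrt 5 := by
    rw [trace_J, lowa_sum, hz]
    ring
  have h1 : ENNReal.ofReal (Real.sqrt 5) ≤ chiVec3 lowa_G := by
    refine le_iSup₂_of_le (lowa_W z) ⟨hpsd, lowa_nonneg hz0, hrank, htr⟩ ?_
    rw [hJ]
  have h2 : (lowa_G.cliqueNum : ℝ≥0∞) ≤ 2 := by
    exact_mod_cast clique_le lowa_G lowa_free
  have h3 : chiVec3 lowa_G / (lowa_G.cliqueNum : ℝ≥0∞) ≤ C3 :=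
    le_iSup₂_of_le (f := fun (n : ℕ) (G : SimpleGraph (Fin (n + 1))) =>
      chiVec3 G / (G.cliqueNum : ℝ≥0∞)) 4 lowa_G le_rfl
  refine le_trans ?_ h3
  rw [ENNReal.ofReal_div_of_pos (by norm_num)]
  refine ENNReal.div_le_div h1 ?_
  rw [ENNReal.ofReal_ofNat]
  exact h2

end

end Pool.H21.VC
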