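import Pool.Agent.H21.VC.Tr

/-!
MP_6f80dc_co, row LowB: `C₃' ≥ 1.0615`, from the complement of the 7-cycle.

PROOF.  Let `G` be the graph on `Fin 7` in which distinct `i, j` are nonadjacent iff `j - i = ±3` (mod 7),
i.e. `|i - j| ∈ {3, 4}` (the complement of a 7-cycle).  `G.CliqueFree 4` (a clique with 4 vertices would be
an independent 4-set of a 7-cycle: `decide`, or a short argument), so `cliqueNum ≤ 3` (`clique_le`).
Let `x = (100,0),(90,43),(62,78),(22,97),(-22,97),(-62,78),(-90,43)`, `Y i j = x_i · x_j` (integers),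
`T = ∑_{i,j} Y_ij²`, `N = ∑_{nonadjacent or equal} Y_ij²`; by computation `T/N > 3 · 1.0615`
(`T/(3N) = 1.06153…`).  Put `X = t • Y` with `t = 1/√(√N)`: i.e. `t² ≥ 0`, `t⁴·…`: choose `t > 0` real with
`t ^ 2 * N = 1` where `X i j = t * Y i j` (so `X ∘ X = t² (Y ∘ Y)`).  `X` is positive semidefinite
(`X = t • Bᵀ B`, `B : 2 × 7`), of rank `≤ 2`, `⟨I + Ā, X∘X⟩ = 1`, and `⟨J, X∘X⟩ = T/N`.
So `chiVec3' G ≥ ofReal (T/N) ≥ ofReal (3 · 1.0615)` and `C3' ≥ chiVec3' G / cliqueNum ≥ ofReal 1.0615`.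
-/

set_option autoImplicit false

namespace Pool.H21.VC

noncomputable section

open scoped ENNReal

/-- the integer coordinates of the seven vectors -/
def lowb_b : Fin 2 → Fin 7 → ℤ :=
  ![![100, 90, 62, 22, -22, -62, -90], ![0, 43, 78, 97, 97, 78, 43]]

/-- adjacency in the complement of the 7-cycle `i, i + 3` -/
def lowb_A (i j : Fin 7) : Bool :=
  ((i.val + 7 - j.val) % 7 == 1) || ((i.val + 7 - j.val) % 7 == 2) ||
    ((i.val + 7 - j.val) % 7 == 5) || ((i.val + 7 - j.val) % 7 == 6)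

/-- the complement of the 7-cycle -/
def lowb_G : SimpleGraph (Fin 7) where
  Adj i j := lowb_A i j = true
  symm := ⟨by decide⟩
  loopless := ⟨by decide⟩

instance lowb_dec : DecidableRel lowb_G.Adj := fun i j => inferInstanceAs (Decidable (lowb_A i j = true))

theorem lowb_free : lowb_G.CliqueFree (3 + 1) := by
  unfold SimpleGraph.CliqueFree
  decide +kernel

/-- the Gram matrix, in integers -/
def lowb_y (i j : Fin 7) : ℤ := lowb_b 0 i * lowb_b 0 j + lowb_b 1 i * lowb_b 1 j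

theorem lowb_T : (∑ i, ∑ j, lowb_y i j ^ 2 : ℤ) = 2417920592 := by decide +kernel

theorem lowb_N : (∑ i, ∑ j, (if lowb_A i j = true then 0 else lowb_y i j ^ 2) : ℤ) = 759255896 := by
  decide +kernel

theorem lowb_nSum (Z : Fin 7 → Fin 7 → ℝ) :
    nSum lowb_G Z = ∑ i, ∑ j, if lowb_A i j = true then 0 else Z i j := by
  unfold nSum
  refine Finset.sum_congr rfl fun i _ => Finset.sum_congr rfl fun j _ => ?_
  by_cases h : lowb_A i j = true
  · have h' : lowb_G.Adj i j := h
    rw [if_pos h', if_pos h]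
  · have h' : ¬ lowb_G.Adj i j := h
    rw [if_neg h', if_neg h]

/-- the factor -/
def lowb_M (s : ℝ) : Matrix (Fin 2) (Fin 7) ℝ := Matrix.of fun k i => s * (lowb_b k i : ℝ)

theorem lowb_X (s : ℝ) (i j : Fin 7) :
    ((lowb_M s).conjTranspose * lowb_M s) i j = s ^ 2 * (lowb_y i j : ℝ) := by
  rw [Matrix.mul_apply, Fin.sum_univ_two]
  simp only [Matrix.conjTranspose_apply, star_trivial, lowb_M, Matrix.of_apply]
  unfold lowb_y
  push_cast
  ring

theorem lowb_H (s : ℝ) (hs : s ^ 4 = 1 / 759255896) (i j : Fin 7) :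
    (((lowb_M s).conjTranspose * lowb_M s).hadamard ((lowb_M s).conjTranspose * lowb_M s)) i j
      = (lowb_y i j : ℝ) ^ 2 / 759255896 := by
  rw [Matrix.hadamard_apply, lowb_X]
  have h : s ^ 2 * (lowb_y i j : ℝ) * (s ^ 2 * (lowb_y i j : ℝ)) = s ^ 4 * (lowb_y i j : ℝ) ^ 2 := by
    ring
  rw [h, hs]
  ring

theorem lowb_chi : ENNReal.ofReal (2417920592 / 759255896) ≤ chiVec3' lowb_G := by
  obtain ⟨s, hs⟩ : ∃ s : ℝ, s ^ 4 = 1 / 759255896 := by
    refine ⟨Real.sqrt (Real.sqrt (1 / 759255896)), ?_⟩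
    have h1 : Real.sqrt (Real.sqrt (1 / 759255896)) ^ 4
        = ((Real.sqrt (Real.sqrt (1 / 759255896))) ^ 2) ^ 2 := by ring
    rw [h1, Real.sq_sqrt (Real.sqrt_nonneg _), Real.sq_sqrt (by norm_num)]
  have hY : ∀ i j, lowb_y i j = lowb_y j i := fun i j => by unfold lowb_y; ring
  have hJ : (J 7 * (((lowb_M s).conjTranspose * lowb_M s).hadamard
      ((lowb_M s).conjTranspose * lowb_M s))).trace = 2417920592 / 759255896 := by
    rw [trace_J]
    simp only [lowb_H s hs]
    rw [show (∑ i, ∑ j, (lowb_y i j : ℝ) ^ 2 / 759255896)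
      = ((∑ i, ∑ j, lowb_y i j ^ 2 : ℤ) : ℝ) / 759255896 by
        push_cast
        rw [Finset.sum_div]
        exact Finset.sum_congr rfl fun i _ => (Finset.sum_div _ _ _).symm]
    rw [lowb_T]
    norm_num
  have hN : (nonAdj lowb_G * (((lowb_M s).conjTranspose * lowb_M s).hadamard
      ((lowb_M s).conjTranspose * lowb_M s))).trace = 1 := by
    rw [trace_nonAdj]
    · rw [lowb_nSum]
      simp only [lowb_H s hs]
      rw [show (∑ i, ∑ j, if lowb_A i j = true then (0 : ℝ) else (lowb_y i j : ℝ) ^ 2 / 759255896)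
        = ((∑ i, ∑ j, (if lowb_A i j = true then 0 else lowb_y i j ^ 2) : ℤ) : ℝ) / 759255896 by
          push_cast
          rw [Finset.sum_div]
          refine Finset.sum_congr rfl fun i _ => ?_
          rw [Finset.sum_div]
          refine Finset.sum_congr rfl fun j _ => ?_
          split_ifs <;> simp]
      rw [lowb_N]
      norm_num
    · intro i j
      rw [lowb_H s hs, lowb_H s hs, hY]
  unfold chiVec3'
  refine le_iSup₂_of_le ((lowb_M s).conjTranspose * lowb_M s)
    ⟨Matrix.posSemidef_conjTranspose_mul_self _, ?_, hN⟩ ?_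
  · refine (Matrix.rank_mul_le_right _ _).trans ?_
    have := Matrix.rank_le_card_height (lowb_M s)
    simpa using this
  · rw [hJ]

theorem lowB : ENNReal.ofReal (10615 / 10000) ≤ C3' := by
  have h1 : chiVec3' lowb_G / (lowb_G.cliqueNum : ℝ≥0∞) ≤ C3' := by
    unfold C3'
    exact le_iSup₂_of_le 6 lowb_G le_rfl
  refine le_trans ?_ h1
  have h2 : (lowb_G.cliqueNum : ℝ≥0∞) ≤ 3 := by
    exact_mod_cast clique_le lowb_G lowb_free
  calc ENNReal.ofReal (10615 / 10000) ≤ ENNReal.ofReal (2417920592 / 759255896 / 3) :=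
        ENNReal.ofReal_le_ofReal (by norm_num)
    _ = ENNReal.ofReal (2417920592 / 759255896) / 3 := by
        rw [ENNReal.ofReal_div_of_pos (by norm_num : (0 : ℝ) < 3)]
        congr 1
        norm_num
    _ ≤ chiVec3' lowb_G / 3 := ENNReal.div_le_div_right lowb_chi _
    _ ≤ chiVec3' lowb_G / (lowb_G.cliqueNum : ℝ≥0∞) := ENNReal.div_le_div_left h2 _

end

end Pool.H21.VC
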