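import Pool.Agent.H21.VC.Defs

/-!
MP_6f80dc_co, row Tr: small facts.

PROOFS.  trace_J, trace_nonAdj: unfold `Matrix.trace`, `Matrix.mul_apply`, and exchange the two sums
(`Finset.sum_comm`); for `nonAdj` use `SimpleGraph.adjMatrix_apply`, `SimpleGraph.compl_adj`,
`Matrix.one_apply` and `G.adj_comm`: the entry of `1 + Ḡ` is `0` if `G.Adj i j` and `1` otherwise.
The two facts on `cliqueNum`: `SimpleGraph.cliqueFree_of_cliqueNum_lt`-like lemmas or
`SimpleGraph.IsClique.card_le_cliqueNum`, singletons are cliques.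
clique_le: from `CliqueFree (r + 1)`, `cliqueNum ≤ r` (`SimpleGraph.exists_isNClique_cliqueNum` and
`SimpleGraph.CliqueFree.mono`).
-/

set_option autoImplicit false

namespace Pool.H21.VC

noncomputable section

theorem trace_J {n : ℕ} (Z : Matrix (Fin n) (Fin n) ℝ) :
    (J n * Z).trace = ∑ i, ∑ j, Z i j := by
  have h1 : (J n * Z).trace = ∑ i, ∑ j, Z j i := by
    unfold Matrix.trace
    refine Finset.sum_congr rfl fun i _ => ?_
    rw [Matrix.diag_apply, Matrix.mul_apply]
    refine Finset.sum_congr rfl fun j _ => ?_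
    show (1 : ℝ) * Z j i = Z j i
    rw [one_mul]
  rw [h1, Finset.sum_comm]

theorem trace_nonAdj {n : ℕ} (G : SimpleGraph (Fin n)) (Z : Matrix (Fin n) (Fin n) ℝ)
    (hZ : ∀ i j, Z i j = Z j i) :
    (nonAdj G * Z).trace = nSum G (fun i j => Z i j) := by
  classical
  unfold Matrix.trace nSum
  refine Finset.sum_congr rfl fun i _ => ?_
  rw [Matrix.diag_apply, Matrix.mul_apply]
  refine Finset.sum_congr rfl fun j _ => ?_
  rw [hZ j i]
  unfold nonAdj
  rw [Matrix.add_apply, SimpleGraph.adjMatrix_apply, Matrix.one_apply]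
  by_cases hij : i = j
  · subst hij
    simp
  · by_cases ha : G.Adj i j
    · simp [ha, hij]
    · simp [ha, hij]

theorem cliqueFree_cliqueNum {n : ℕ} (G : SimpleGraph (Fin n)) :
    G.CliqueFree (G.cliqueNum + 1) := by
  intro s hs
  have h1 := hs.isClique.card_le_cliqueNum
  rw [hs.card_eq] at h1
  omega

theorem one_le_cliqueNum {n : ℕ} (G : SimpleGraph (Fin (n + 1))) : 1 ≤ G.cliqueNum := by
  have h1 : G.IsClique ((({0} : Finset (Fin (n + 1))) : Set (Fin (n + 1)))) := by
    rw [Finset.coe_singleton]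
    exact SimpleGraph.isClique_singleton 0
  have h2 := h1.card_le_cliqueNum
  rwa [Finset.card_singleton] at h2

theorem clique_le {n r : ℕ} (G : SimpleGraph (Fin n)) (hG : G.CliqueFree (r + 1)) :
    G.cliqueNum ≤ r := by
  by_contra hcon
  push Not at hcon
  obtain ⟨s, hs⟩ := G.exists_isNClique_cliqueNum
  exact (hG.mono hcon) s hs

end

end Pool.H21.VC
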