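import Pool.Agent.H21.VC.Gram
import Pool.Agent.H21.VC.CoreA
import Pool.Agent.H21.VC.CoreB
import Pool.Agent.H21.VC.Tr

/-!
MP_6f80dc_co, row Up: the two upper bounds.

PROOF.  upA: `iSup_le` twice; `ENNReal.div_le_of_le_mul`: it suffices that `chiVec3 G ≤ 2 * cliqueNum`.
`iSup₂_le`: for `Z` feasible, `gram` gives `v : Fin (n+1) → Fin 3 → ℝ` with `Z i j = ∑ v v`; `coreA` with
`r = G.cliqueNum` (`one_le_cliqueNum`, `cliqueFree_cliqueNum`), `trace_J`, `trace_nonAdj` (`= 1`) give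
`(J * Z).trace ≤ 2 * cliqueNum`, hence `ofReal (..) ≤ 2 * cliqueNum` (`ENNReal.ofReal_le_ofReal`,
`ENNReal.ofReal_mul`, `ENNReal.ofReal_natCast`).
upB: the same with `gram` for `X` (rank ≤ 2) and `coreB`; `Z = X ⊙ X`.
-/

set_option autoImplicit false

namespace Pool.H21.VC

noncomputable section

open scoped ENNReal

theorem up_mem {n : ℕ} (Z : Matrix (Fin n) (Fin n) ℝ) (hZ : Z.PosSemidef) :
    ∀ i j, Z i j = Z j i := by
  intro i j
  have := hZ.1.apply i j
  simpa using this.symm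

theorem upA : C3 ≤ 2 := by
  unfold C3
  refine iSup_le fun n => iSup_le fun G => ?_
  apply ENNReal.div_le_of_le_mul
  unfold chiVec3
  refine iSup₂_le fun Z hZ => ?_
  obtain ⟨hpsd, hnn, hrk, htr⟩ := hZ
  obtain ⟨v, hv⟩ := gram hpsd hrk
  have h0 : ∀ i j, 0 ≤ ∑ k, v i k * v j k := fun i j => by rw [← hv]; exact hnn i j
  have hc := coreA G (one_le_cliqueNum G) (cliqueFree_cliqueNum G) v h0
  simp only [← hv] at hc
  rw [trace_nonAdj G Z (up_mem Z hpsd)] at htr
  rw [htr, ← trace_J] at hc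
  calc ENNReal.ofReal (J (n + 1) * Z).trace
      ≤ ENNReal.ofReal (2 * (G.cliqueNum : ℝ)) := by
        apply ENNReal.ofReal_le_ofReal
        linarith
    _ = 2 * (G.cliqueNum : ℝ≥0∞) := by
        rw [ENNReal.ofReal_mul (by norm_num), ENNReal.ofReal_natCast]
        norm_num

theorem upB : C3' ≤ ENNReal.ofReal (1071 / 1000) := by
  unfold C3'
  refine iSup_le fun n => iSup_le fun G => ?_
  apply ENNReal.div_le_of_le_mul
  unfold chiVec3'
  refine iSup₂_le fun X hX => ?_
  obtain ⟨hpsd, hrk, htr⟩ := hX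
  obtain ⟨x, hx⟩ := gram hpsd hrk
  have hc := coreB G (one_le_cliqueNum G) (cliqueFree_cliqueNum G) x
  have hsq : ∀ i j, (∑ k, x i k * x j k) ^ 2 = (X.hadamard X) i j := by
    intro i j
    rw [← hx, Matrix.hadamard_apply, sq]
  simp only [hsq] at hc
  have hs : ∀ i j, (X.hadamard X) i j = (X.hadamard X) j i := by
    intro i j
    rw [Matrix.hadamard_apply, Matrix.hadamard_apply, up_mem X hpsd i j]
  rw [trace_nonAdj G _ hs] at htr
  rw [htr, ← trace_J] at hc
  calc ENNReal.ofReal (J (n + 1) * X.hadamard X).trace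
      ≤ ENNReal.ofReal (1071 / 1000 * (G.cliqueNum : ℝ)) := by
        apply ENNReal.ofReal_le_ofReal
        linarith
    _ = ENNReal.ofReal (1071 / 1000) * (G.cliqueNum : ℝ≥0∞) := by
        rw [ENNReal.ofReal_mul (by norm_num), ENNReal.ofReal_natCast]

end

end Pool.H21.VC
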